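import Pool.Agent.Helper3.LF.Spd

/-! LEMMA SPEED, statement; the thickness `eta(c)` and the first window `c_*(s)` (LEAF (0.5), sect. 3). -/

set_option autoImplicit false

namespace Pool.Agent.Helper3.LF

open Finset Filter Topology Matrix Pool.Agent.Helper69.RK Pool.Agent.Helper31.EC Pool.Agent.Helper40.EL
open Pool.Agent.Helper95.LF Pool.Agent.Helper89.LX

noncomputable section

variable {S : Sp} {m : ℕ} {s : Sys S m} {D : ℕ}

/-- LEMMA SPEED -/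
theorem Hf_speed {c c' σ : ℝ} (h0 : 0 ≤ c) (hcc : c ≤ c') (h1 : c' ≤ 1) (h : Hf s D c σ) :
    Hf s D c' (min 1 (σ + (c' - c))) := by
  rcases lt_or_ge c 1 with hc | hc
  · exact speed_main h0 hc hcc h1 h
  · have e1 : c' - c ≤ 0 := by linarith
    exact (h.mono_c hcc).mono_s ((min_le_right _ _).trans (by linarith))

/-- LEMMA SPEED, without the minimum -/
theorem Hf_speed' {c c' σ : ℝ} (h0 : 0 ≤ c) (hcc : c ≤ c') (h1 : c' ≤ 1) (h : Hf s D c σ)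
    (h2 : σ + (c' - c) ≤ 1) : Hf s D c' (σ + (c' - c)) := by
  have := Hf_speed h0 hcc h1 h
  rwa [min_eq_right h2] at this

/-- the coordinate `t` as a monomial -/
def Mon.fst {N D : ℕ} (hD : 1 ≤ D) : Mon (N + 1) D :=
  ⟨fun i => if i = 0 then ⟨1, by omega⟩ else 0, by
    rw [Fin.sum_univ_succ]
    simp [Fin.succ_ne_zero, hD]⟩

theorem Mon.fst_mon {N D : ℕ} (hD : 1 ≤ D) : (Mon.fst (N := N) hD).mon = MvPolynomial.X 0 := by
  unfold Mon.mon MvPolynomial.X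
  have h1 : (Mon.fst (N := N) hD).ex = Finsupp.single 0 1 := by
    ext i
    rw [Mon.ex_apply]
    unfold Mon.fst
    by_cases hi : i = 0
    · simp [hi]
    · simp [hi]
  rw [h1]

theorem dd_fst {N D : ℕ} (hD : 1 ≤ D) (p : Fin (N + 1) → ℝ) : dd 0 p (Mon.fst (N := N) hD) = 1 := by
  unfold dd
  rw [Mon.fst_mon, MvPolynomial.pderiv_X_self, map_one]

theorem one_le_gam {N D : ℕ} (hD : 1 ≤ D) (r : ℝ) (p : Fin (N + 1) → ℝ) :
    1 ≤ gam r (1 : Matrix (Mon (N + 1) D) (Mon (N + 1) D) ℝ) p := by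
  unfold gam
  have h0 : ∀ (i : Fin (N + 1)) (j : Fin (N + 1) → Fin (D + 1)),
      0 ≤ dd (D := D) i (nodp D p r j) ⬝ᵥ ((1 : Matrix (Mon (N + 1) D) (Mon (N + 1) D) ℝ) *ᵥ dd i (nodp D p r j)) := by
    intro i j
    rw [Matrix.one_mulVec]
    exact dot_self_nonneg _
  have h1 : (1 : ℝ) ≤ dd (D := D) 0 (nodp D p r fun _ => 0) ⬝ᵥ
      ((1 : Matrix (Mon (N + 1) D) (Mon (N + 1) D) ℝ) *ᵥ dd 0 (nodp D p r fun _ => 0)) := by
    rw [Matrix.one_mulVec]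
    unfold dotProduct
    have h2 : dd (D := D) 0 (nodp D p r fun _ => 0) (Mon.fst (N := N) hD) *
        dd (D := D) 0 (nodp D p r fun _ => 0) (Mon.fst (N := N) hD) = 1 := by
      rw [dd_fst, mul_one]
    rw [← h2]
    exact Finset.single_le_sum (f := fun a => dd (D := D) 0 (nodp D p r fun _ => 0) a *
      dd (D := D) 0 (nodp D p r fun _ => 0) a) (fun _ _ => mul_self_nonneg _) (Finset.mem_univ _)
  refine h1.trans ?_
  refine le_trans ?_ (Finset.single_le_sum (f := fun i => ∑ j : Fin (N + 1) → Fin (D + 1),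
    dd (D := D) i (nodp D p r j) ⬝ᵥ ((1 : Matrix (Mon (N + 1) D) (Mon (N + 1) D) ℝ) *ᵥ dd i (nodp D p r j)))
    (fun i _ => Finset.sum_nonneg fun j _ => h0 i j) (Finset.mem_univ 0))
  exact Finset.single_le_sum (f := fun j => dd (D := D) 0 (nodp D p r j) ⬝ᵥ
    ((1 : Matrix (Mon (N + 1) D) (Mon (N + 1) D) ℝ) *ᵥ dd 0 (nodp D p r j))) (fun j _ => h0 0 j) (Finset.mem_univ _)

/-- `H(c,0)` -/
theorem Hf_zero (hD : 1 ≤ D) (c : ℝ) : Hf s D c 0 := by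
  refine ⟨fun k => trivFD (S.F k), (gau s D).triv_Ad _ _, fun e he => ?_⟩
  have h1 : (fun k => (trivFD (ι := Mon (m + 1) D) (S.F k)).l.T.pb (fun ω =>
      ¬ 2 ^ (2 * (0 - e) * (S.F k).n) ≤ sga s D k ((trivFD (ι := Mon (m + 1) D) (S.F k)).l.p.π ω)
        ((trivFD (ι := Mon (m + 1) D) (S.F k)).g ω))) = fun _ => 0 := by
    funext k
    apply le_antisymm _ (FSp.pb_nonneg _ _)
    refine le_trans (FSp.pb_mono _ (E' := fun _ => False) ?_) (le_of_eq ?_)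
    · intro ω _ h2
      apply h2
      have h3 := one_le_gam (N := m) hD (S.dl 1 k) (ptf s k ((trivFD (ι := Mon (m + 1) D) (S.F k)).l.p.π ω))
      refine le_trans ?_ h3
      apply Real.rpow_le_one_of_one_le_of_nonpos (by norm_num)
      have := (S.F k).pos
      nlinarith
    · unfold FSp.pb mass
      apply Finset.sum_eq_zero
      intro ω _
      exact res_neg _ _ _ not_false
  rw [h1]
  exact tendsto_const_nhds

/-- `H(c,c)` -/
theorem Hf_self (hD : 1 ≤ D) {c : ℝ} (h0 : 0 ≤ c) (h1 : c ≤ 1) : Hf s D c c := by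
  have := Hf_speed (c := 0) (c' := c) le_rfl h0 h1 (Hf_zero (s := s) hD 0)
  rw [sub_zero, zero_add, min_eq_right h1] at this
  exact this

variable (s D)

/-- the thickness of the best hypersurface container of the window `c` -/
def eta (c : ℝ) : ℝ := sSup {σ | Hf s D c σ}

/-- the first window with a hypersurface container of thickness `σ` -/
def cst (σ : ℝ) : ℝ := sInf {c | 0 ≤ c ∧ Hf s D c σ}

variable {s D}

theorem Hf_bdd (c : ℝ) : BddAbove {σ | Hf s D c σ} := ⟨1, fun _ h => Hf.le_one h⟩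

theorem le_eta {c σ : ℝ} (h : Hf s D c σ) : σ ≤ eta s D c := le_csSup (Hf_bdd c) h

theorem Hf_eta (hD : 1 ≤ D) (c : ℝ) : Hf s D c (eta s D c) := by
  apply Hf.of_lt
  intro σ hσ
  obtain ⟨σ', h1, h2⟩ := exists_lt_of_lt_csSup ⟨0, Hf_zero (s := s) hD c⟩ hσ
  exact Hf.mono_s h1 h2.le

theorem Hf_iff_eta (hD : 1 ≤ D) {c σ : ℝ} : Hf s D c σ ↔ σ ≤ eta s D c :=
  ⟨le_eta, fun h => (Hf_eta hD c).mono_s h⟩

theorem eta_le_one (hD : 1 ≤ D) (c : ℝ) : eta s D c ≤ 1 := (Hf_eta hD c).le_one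

theorem eta_nonneg (hD : 1 ≤ D) (c : ℝ) : 0 ≤ eta s D c := le_eta (Hf_zero hD c)

theorem eta_ge_self (hD : 1 ≤ D) {c : ℝ} (h0 : 0 ≤ c) (h1 : c ≤ 1) : c ≤ eta s D c := le_eta (Hf_self hD h0 h1)

theorem eta_one (hD : 1 ≤ D) : eta s D 1 = 1 := le_antisymm (eta_le_one hD 1) (eta_ge_self hD zero_le_one le_rfl)

theorem eta_mono (hD : 1 ≤ D) {c c' : ℝ} (h : c ≤ c') : eta s D c ≤ eta s D c' := le_eta ((Hf_eta hD c).mono_c h)

/-- SPEED for `eta` -/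
theorem eta_speed (hD : 1 ≤ D) {c c' : ℝ} (h0 : 0 ≤ c) (h : c ≤ c') (h1 : c' ≤ 1) :
    min 1 (eta s D c + (c' - c)) ≤ eta s D c' := le_eta (Hf_speed h0 h h1 (Hf_eta hD c))

/-- `eta` is right continuous -/
theorem eta_right (hD : 1 ≤ D) {c v : ℝ} (h : ∀ c', c < c' → v ≤ eta s D c') : v ≤ eta s D c := by
  apply le_eta
  apply Hf.right
  intro c' hc
  exact (Hf_iff_eta hD).2 (h c' hc)

theorem cst_bdd (σ : ℝ) : BddBelow {c | 0 ≤ c ∧ Hf s D c σ} := ⟨0, fun _ h => h.1⟩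

theorem cst_le {c σ : ℝ} (h0 : 0 ≤ c) (h : Hf s D c σ) : cst s D σ ≤ c := csInf_le (cst_bdd σ) ⟨h0, h⟩

theorem cst_ne (hD : 1 ≤ D) {σ : ℝ} (hσ : σ ≤ 1) : {c | 0 ≤ c ∧ Hf s D c σ}.Nonempty :=
  ⟨1, zero_le_one, (Hf_self hD zero_le_one le_rfl).mono_s hσ⟩

theorem cst_nonneg (σ : ℝ) : 0 ≤ cst s D σ := Real.sInf_nonneg fun _ h => h.1

/-- the minimum is attained -/
theorem Hf_cst (hD : 1 ≤ D) {σ : ℝ} (hσ : σ ≤ 1) : Hf s D (cst s D σ) σ := by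
  apply Hf.right
  intro c' hc
  obtain ⟨c, h1, h2⟩ := exists_lt_of_csInf_lt (cst_ne hD hσ) hc
  exact h1.2.mono_c h2.le

theorem cst_le_iff (hD : 1 ≤ D) {c σ : ℝ} (hσ : σ ≤ 1) (h0 : 0 ≤ c) : cst s D σ ≤ c ↔ Hf s D c σ :=
  ⟨fun h => (Hf_cst hD hσ).mono_c h, cst_le h0⟩

theorem cst_le_iff_eta (hD : 1 ≤ D) {c σ : ℝ} (hσ : σ ≤ 1) (h0 : 0 ≤ c) : cst s D σ ≤ c ↔ σ ≤ eta s D c :=
  (cst_le_iff hD hσ h0).trans (Hf_iff_eta hD)

/-- `c_*(s) ≤ s` -/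
theorem cst_le_self (hD : 1 ≤ D) {σ : ℝ} (h0 : 0 ≤ σ) (h1 : σ ≤ 1) : cst s D σ ≤ σ := cst_le h0 (Hf_self hD h0 h1)

theorem cst_le_one (hD : 1 ≤ D) {σ : ℝ} (h1 : σ ≤ 1) : cst s D σ ≤ 1 :=
  cst_le zero_le_one ((Hf_self hD zero_le_one le_rfl).mono_s h1)

theorem cst_mono (hD : 1 ≤ D) {σ σ' : ℝ} (h : σ ≤ σ') (h1 : σ' ≤ 1) : cst s D σ ≤ cst s D σ' :=
  cst_le (cst_nonneg _) ((Hf_cst hD h1).mono_s h)

/-- `c_*` is left continuous -/
theorem cst_left (hD : 1 ≤ D) {σ v : ℝ} (h1 : σ ≤ 1) (hv : 0 ≤ v) (h : ∀ σ' < σ, cst s D σ' ≤ v) :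
    cst s D σ ≤ v := by
  apply cst_le hv
  apply Hf.of_lt
  intro σ' hσ
  exact (cst_le_iff hD (hσ.le.trans h1) hv).1 (h σ' hσ)

/-- SPEED for `c_*`: it is 1-Lipschitz -/
theorem cst_speed (hD : 1 ≤ D) {σ σ' : ℝ} (h : σ ≤ σ') (h1 : σ' ≤ 1) : cst s D σ' ≤ cst s D σ + (σ' - σ) := by
  rcases le_total (cst s D σ + (σ' - σ)) 1 with h2 | h2
  · have h3 := Hf_speed' (cst_nonneg σ) (show cst s D σ ≤ cst s D σ + (σ' - σ) by linarith) h2
      (Hf_cst (s := s) hD (h.trans h1)) (by linarith)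
    have e1 : σ + (cst s D σ + (σ' - σ) - cst s D σ) = σ' := by ring
    rw [e1] at h3
    have := cst_nonneg (s := s) (D := D) σ
    exact cst_le (by linarith) h3
  · exact (cst_le_one hD h1).trans h2

end

end Pool.Agent.Helper3.LF
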