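import Pool.Agent.Helper3.LF.Form

/-! Caps: the coefficients of a form are controlled by its size on one cell. (LEAF (0.1)) -/

set_option autoImplicit false

namespace Pool.Agent.Helper3.LF

open MvPolynomial Matrix Pool.Agent.Helper95.LF

variable {N D : ℕ}

theorem coeff_pol (c : Mon N D → ℝ) (a : Mon N D) : coeff a.ex (pol c) = c a := by
  classical
  have hinj : Function.Injective (Mon.ex : Mon N D → Fin N →₀ ℕ) := by
    intro a b h
    apply Subtype.ext
    funext i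
    apply Fin.ext
    exact DFunLike.congr_fun h i
  unfold pol Mon.mon
  rw [coeff_sum, Finset.sum_eq_single a]
  · rw [coeff_C_mul, coeff_monomial, if_pos rfl, mul_one]
  · intro b _ hb
    rw [coeff_C_mul, coeff_monomial, if_neg (fun h => hb (hinj h)), mul_zero]
  · intro h
    exact absurd (Finset.mem_univ a) h

/-- the values at the nodes of the unit cell -/
noncomputable def nodeMap (N D : ℕ) : (Mon N D → ℝ) →ₗ[ℝ] ((Fin N → Fin (D + 1)) → ℝ) where
  toFun c := fun j => c ⬝ᵥ vv (nodp D 0 1 j)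
  map_add' c c' := by
    funext j
    exact add_dotProduct _ _ _
  map_smul' s c := by
    funext j
    exact smul_dotProduct _ _ _

theorem nodeMap_ker (N D : ℕ) : LinearMap.ker (nodeMap N D) = ⊥ := by
  rw [LinearMap.ker_eq_bot']
  intro c hc
  have h0 : pol c = 0 := by
    apply MvPolynomial.funext
    intro y
    rw [map_zero]
    obtain ⟨K, hK⟩ : ∃ K : ℝ, ∀ i, |y i| ≤ K := by
      refine ⟨∑ i, |y i|, fun i => ?_⟩
      exact Finset.single_le_sum (f := fun i => |y i|) (fun _ _ => abs_nonneg _) (Finset.mem_univ i)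
    have h1 := cell_val D (pol c) (pol_deg c) 0 1 (max K 1) 0 one_pos (le_max_right _ _)
      (by
        intro j
        rw [eval_pol]
        have h2 : c ⬝ᵥ vv (nodp D 0 1 j) = 0 := congrFun hc j
        rw [h2, abs_zero])
      y (by
        intro i
        rw [Pi.zero_apply, sub_zero, mul_one]
        exact (hK i).trans (le_max_left _ _))
    rw [mul_zero] at h1
    exact abs_eq_zero.1 (le_antisymm h1 (abs_nonneg _))
  funext a
  rw [← coeff_pol c a, h0, coeff_zero]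
  rfl

/-- the coefficients are controlled by the size on the unit cell -/
theorem exists_coeff (N D : ℕ) : ∃ C : ℝ, 0 ≤ C ∧ ∀ c : Mon N D → ℝ, c ⬝ᵥ c ≤ C * ph D (pol c) 1 0 := by
  classical
  obtain ⟨K, hK0, hK⟩ := LinearMap.exists_antilipschitzWith (nodeMap N D) (nodeMap_ker N D)
  refine ⟨Fintype.card (Mon N D) * (K : ℝ) ^ 2, by positivity, fun c => ?_⟩
  have h1 : ‖c‖ ≤ K * ‖nodeMap N D c‖ := by
    have h2 := hK.le_mul_dist c 0
    rw [dist_zero_right, map_zero, dist_zero_right] at h2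
    exact h2
  have h3 : ‖nodeMap N D c‖ ^ 2 ≤ ph D (pol c) 1 0 := by
    have h4 : ‖nodeMap N D c‖ ≤ Real.sqrt (ph D (pol c) 1 0) := by
      rw [pi_norm_le_iff_of_nonneg (Real.sqrt_nonneg _)]
      intro j
      have h5 := node_le (D := D) (pol c) 1 0 j
      rw [eval_pol] at h5
      exact h5
    calc ‖nodeMap N D c‖ ^ 2 ≤ (Real.sqrt (ph D (pol c) 1 0)) ^ 2 :=
          pow_le_pow_left₀ (norm_nonneg _) h4 2
      _ = _ := Real.sq_sqrt (ph_nonneg _ _ _)
  have h6 : c ⬝ᵥ c ≤ Fintype.card (Mon N D) * ‖c‖ ^ 2 := by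
    unfold dotProduct
    refine (Finset.sum_le_card_nsmul _ _ (‖c‖ ^ 2) fun a _ => ?_).trans (le_of_eq ?_)
    · have h7 : |c a| ≤ ‖c‖ := norm_le_pi_norm c a
      calc c a * c a = |c a| ^ 2 := by rw [sq_abs]; ring
        _ ≤ ‖c‖ ^ 2 := pow_le_pow_left₀ (abs_nonneg _) h7 2
    · rw [nsmul_eq_mul, Finset.card_univ]
  calc c ⬝ᵥ c ≤ Fintype.card (Mon N D) * ‖c‖ ^ 2 := h6
    _ ≤ Fintype.card (Mon N D) * (K * ‖nodeMap N D c‖) ^ 2 :=
        mul_le_mul_of_nonneg_left (pow_le_pow_left₀ (norm_nonneg _) h1 2) (Nat.cast_nonneg _)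
    _ = Fintype.card (Mon N D) * (K : ℝ) ^ 2 * ‖nodeMap N D c‖ ^ 2 := by ring
    _ ≤ _ := mul_le_mul_of_nonneg_left h3 (by positivity)

theorem cs (u v : Mon N D → ℝ) : (u ⬝ᵥ v) ^ 2 ≤ (u ⬝ᵥ u) * (v ⬝ᵥ v) := by
  have h1 := Finset.sum_mul_sq_le_sq_mul_sq Finset.univ u v
  unfold dotProduct
  refine h1.trans (le_of_eq ?_)
  simp only [pow_two]

/-- CAP: a form is at most `C K ^ (2 D)` times its size on a cell of side `r`, if the unit cell at the origin is
contained in the `K`-fold enlargement -/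
theorem exists_cap (N D : ℕ) : ∃ C : ℝ, 0 ≤ C ∧ ∀ (A : Matrix (Mon N D) (Mon N D) ℝ), PdM A →
    ∀ (r K : ℝ) (p : Fin N → ℝ), 0 < r → 1 ≤ K → (∀ i, |p i| + 1 ≤ K * r) →
    ∀ x : Mon N D → ℝ, x ⬝ᵥ (A *ᵥ x) ≤ C * K ^ (2 * D) * phi r A p * (x ⬝ᵥ x) := by
  obtain ⟨C, hC0, hC⟩ := exists_coeff N D
  refine ⟨C * (nn N D * (Cu D * Cm N D) ^ 2), ?_, ?_⟩
  · have := nn_one N D
    positivity
  · intro A hA r K p hr hK hp x
    obtain ⟨B, hB, h1, -⟩ := exists_rows A hA
    have hx : 0 ≤ x ⬝ᵥ x := self_nonneg' x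
    have h2 : ∀ k : Mon N D, (B k ⬝ᵥ x) ^ 2 ≤
        C * (nn N D * (Cu D * Cm N D) ^ 2) * K ^ (2 * D) * ph D (pol (B k)) r p * (x ⬝ᵥ x) := by
      intro k
      refine (cs (B k) x).trans (mul_le_mul_of_nonneg_right ?_ hx)
      refine (hC (B k)).trans ?_
      have h3 := ph_comp (D := D) (pol (B k)) (pol_deg _) r 1 K hr zero_le_one hK p 0 (by
        intro i
        rw [Pi.zero_apply, zero_sub, abs_neg]
        exact hp i)
      calc C * ph D (pol (B k)) 1 0 ≤ C * (nn N D * (Cu D * Cm N D * K ^ D) ^ 2 * ph D (pol (B k)) r p) :=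
            mul_le_mul_of_nonneg_left h3 hC0
        _ = _ := by
            rw [mul_pow (Cu D * Cm N D) (K ^ D), ← pow_mul, mul_comm D 2]
            ring
    have h4 : x ⬝ᵥ (A *ᵥ x) = ∑ k, (B k ⬝ᵥ x) ^ 2 := by
      rw [hB, qf_rows]
    rw [h4, h1]
    refine (Finset.sum_le_sum fun k _ => h2 k).trans (le_of_eq ?_)
    rw [Finset.mul_sum, Finset.sum_mul]

/-- the constant monomial -/
def Mon.zero (N D : ℕ) : Mon N D := ⟨fun _ => 0, by simp⟩

theorem vv_zero (p : Fin N → ℝ) : vv p (Mon.zero N D) = 1 := by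
  rw [vv_apply]
  refine Finset.prod_eq_one fun i _ => ?_
  show p i ^ ((0 : Fin (D + 1)) : ℕ) = 1
  rw [Fin.val_zero, pow_zero]

/-- a form which is at least the unit form has size at least one on every cell -/
theorem one_le_phi (A : Matrix (Mon N D) (Mon N D) ℝ)
    (h : ∀ x : Mon N D → ℝ, x ⬝ᵥ x ≤ x ⬝ᵥ (A *ᵥ x)) (r : ℝ) (p : Fin N → ℝ) : 1 ≤ phi r A p := by
  have h0 : ∀ j : Fin N → Fin (D + 1), 1 ≤ vv (D := D) (nodp D p r j) ⬝ᵥ (A *ᵥ vv (nodp D p r j)) := by
    intro j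
    refine le_trans ?_ (h _)
    unfold dotProduct
    have h1 : vv (nodp D p r j) (Mon.zero N D) * vv (nodp D p r j) (Mon.zero N D) = 1 := by
      rw [vv_zero, mul_one]
    rw [← h1]
    exact Finset.single_le_sum (f := fun a : Mon N D => vv (nodp D p r j) a * vv (nodp D p r j) a)
      (fun _ _ => mul_self_nonneg _) (Finset.mem_univ _)
  unfold phi
  have h2 : (1 : ℝ) ≤ ∑ _j : Fin N → Fin (D + 1), (1 : ℝ) := by
    rw [Finset.sum_const, nsmul_eq_mul, mul_one, card_nodes]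
    exact nn_one N D
  exact h2.trans (Finset.sum_le_sum fun j _ => h0 j)

/-- upper bound for the size of a form on a bounded cell -/
theorem phi_le (A : Matrix (Mon N D) (Mon N D) ℝ) (L : ℝ)
    (h : ∀ x : Mon N D → ℝ, x ⬝ᵥ (A *ᵥ x) ≤ L * (x ⬝ᵥ x)) (hL : 0 ≤ L) (r R : ℝ) (hr : 0 ≤ r)
    (hR : 1 ≤ R) (p : Fin N → ℝ) (hp : ∀ i, |p i| + r ≤ R) :
    phi r A p ≤ nn N D * Fintype.card (Mon N D) * R ^ (2 * D) * L := by
  have h1 : ∀ j ∈ (Finset.univ : Finset (Fin N → Fin (D + 1))),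
      vv (D := D) (nodp D p r j) ⬝ᵥ (A *ᵥ vv (nodp D p r j)) ≤
      Fintype.card (Mon N D) * R ^ (2 * D) * L := by
    intro j _
    have h2 : vv (D := D) (nodp D p r j) ⬝ᵥ vv (nodp D p r j) ≤ Fintype.card (Mon N D) * R ^ (2 * D) := by
      unfold dotProduct
      refine (Finset.sum_le_card_nsmul _ _ (R ^ (2 * D)) fun a _ => ?_).trans (le_of_eq ?_)
      · have h3 : |vv (nodp D p r j) a| ≤ R ^ D := by
          rw [vv_apply, Finset.abs_prod]
          calc ∏ i, |nodp D p r j i ^ (a.1 i : ℕ)| ≤ ∏ i, R ^ (a.1 i : ℕ) := by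
                refine Finset.prod_le_prod (fun _ _ => abs_nonneg _) fun i _ => ?_
                rw [abs_pow]
                refine pow_le_pow_left₀ (abs_nonneg _) ?_ _
                unfold nodp
                refine (abs_add_le _ _).trans (le_trans ?_ (hp i))
                refine add_le_add le_rfl ?_
                rw [abs_mul, abs_of_nonneg hr, abs_of_nonneg (nod_nonneg D _)]
                calc r * nod D (j i) ≤ r * 1 :=
                      mul_le_mul_of_nonneg_left (nod_le D _ (Nat.le_of_lt_succ (j i).2)) hr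
                  _ = r := mul_one _
            _ = R ^ (∑ i, (a.1 i : ℕ)) := by rw [Finset.prod_pow_eq_pow_sum]
            _ ≤ R ^ D := pow_le_pow_right₀ hR a.2
        calc vv (nodp D p r j) a * vv (nodp D p r j) a = |vv (nodp D p r j) a| ^ 2 := by
              rw [sq_abs]; ring
          _ ≤ (R ^ D) ^ 2 := pow_le_pow_left₀ (abs_nonneg _) h3 2
          _ = R ^ (2 * D) := by rw [← pow_mul, mul_comm D 2]
      · rw [nsmul_eq_mul, Finset.card_univ]
    calc _ ≤ L * (vv (D := D) (nodp D p r j) ⬝ᵥ vv (nodp D p r j)) := h _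
      _ ≤ L * (Fintype.card (Mon N D) * R ^ (2 * D)) := mul_le_mul_of_nonneg_left h2 hL
      _ = _ := by ring
  refine (Finset.sum_le_card_nsmul _ _ _ h1).trans (le_of_eq ?_)
  rw [nsmul_eq_mul, card_nodes]
  ring

end Pool.Agent.Helper3.LF
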