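import Pool.Agent.Helper3.LF.Rem
import Pool.Agent.Helper3.LF.Cap

/-! Remez inequality for forms along lines, exact calculus. (LEAF (0.2)) -/

set_option autoImplicit false

namespace Pool.Agent.Helper3.LF

open Finset Filter Topology Pool.Agent.Helper69.RK Pool.Agent.Helper31.EC Matrix Pool.Agent.Helper95.LF

noncomputable section

/-- the point of the line `(a, x)` at the height `s`, with its height -/
def pl {m : ℕ} (a x : Fin m → ℝ) (s : ℝ) : Fin (m + 1) → ℝ := Fin.cons s fun i => a i + s * x i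

theorem pl_zero {m : ℕ} (a x : Fin m → ℝ) (s : ℝ) : pl a x s 0 = s := rfl

theorem pl_succ {m : ℕ} (a x : Fin m → ℝ) (s : ℝ) (i : Fin m) : pl a x s i.succ = a i + s * x i := rfl

theorem pl_line {m : ℕ} (a x : Fin m → ℝ) (s : ℝ) :
    pl a x s = fun k => (Fin.cons 0 a : Fin (m + 1) → ℝ) k + s * (Fin.cons 1 x : Fin (m + 1) → ℝ) k := by
  funext k
  refine Fin.cases ?_ (fun i => ?_) k
  · rw [pl_zero, Fin.cons_zero, Fin.cons_zero, zero_add, mul_one]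
  · rw [pl_succ, Fin.cons_succ, Fin.cons_succ]

/-- distance of the points at the same height of two neighbouring lines -/
theorem pl_diff {m : ℕ} (a x a' x' : Fin m → ℝ) (s e R : ℝ) (he : 0 ≤ e) (hs : |s| ≤ R)
    (ha : ∀ i, |a' i - a i| ≤ e) (hx : ∀ i, |x' i - x i| ≤ e) (k : Fin (m + 1)) :
    |pl a' x' s k - pl a x s k| ≤ (1 + R) * e := by
  have hR : 0 ≤ R := (abs_nonneg s).trans hs
  refine Fin.cases ?_ (fun i => ?_) k
  · rw [pl_zero, pl_zero, sub_self, abs_zero]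
    positivity
  · rw [pl_succ, pl_succ]
    have e1 : a' i + s * x' i - (a i + s * x i) = (a' i - a i) + s * (x' i - x i) := by ring
    rw [e1]
    refine (abs_add_le _ _).trans ?_
    rw [abs_mul, add_mul, one_mul]
    exact add_le_add (ha i) (mul_le_mul hs (hx i) (abs_nonneg _) hR)

variable {S : Sp}

theorem Sub_powN {K : ℕ → ℝ} (hK : S.Sub K) (d : ℕ) : S.Sub (fun k => K k ^ d) := by
  induction d with
  | zero => simpa using S.Sub_const zero_le_one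
  | succ d ih =>
    have h1 := ih.mul hK
    simpa [pow_succ] using h1

/-- a quantity `Φ A p` of forms and points which is nonnegative, polynomial along lines and comparable for
neighbouring points -/
theorem gen_rem {m D D' : ℕ} (Φ : ℝ → Matrix (Mon (m + 1) D) (Mon (m + 1) D) ℝ → (Fin (m + 1) → ℝ) → ℝ)
    (C0 : ℝ) (d : ℕ) (hC0 : 0 ≤ C0)
    (hΦ0 : ∀ r A p, PdM A → 0 ≤ Φ r A p)
    (hΦ1 : ∀ r A, PdM A → ∀ a x : Fin (m + 1) → ℝ, ∃ f : Polynomial ℝ, f.natDegree ≤ D' ∧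
      ∀ s : ℝ, f.eval s = Φ r A (fun k => a k + s * x k))
    (hΦ2 : ∀ A, PdM A → ∀ r K : ℝ, 0 < r → 1 ≤ K → ∀ p p' : Fin (m + 1) → ℝ,
      (∀ i, |p' i - p i| + r ≤ K * r) → Φ r A p' ≤ C0 * K ^ d * Φ r A p)
    (a x : S.VV m) (t : S.VV 1) (c l : ℝ) (hc : 0 ≤ c) (hcl : c < l) (B : ∀ k, Setoid (S.F k).Ω)
    (A : ∀ k, (S.F k).Ω → Matrix (Mon (m + 1) D) (Mon (m + 1) D) ℝ)
    (hA : ∀ᶠ k in UF, ∀ ω, (S.F k).μ ω ≠ 0 → PdM (A k ω)) (K : ℕ → ℝ) (hK : S.Sub K)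
    (hB : ∀ᶠ k in UF, ∀ ω ω', (S.F k).μ ω ≠ 0 → (S.F k).μ ω' ≠ 0 → B k ω' ω → (S.F k).Z ω' ω →
      A k ω' = A k ω ∧ (∀ i, |a.v k ω' i - a.v k ω i| ≤ K k * S.dl l k) ∧
      (∀ i, |x.v k ω' i - x.v k ω i| ≤ K k * S.dl l k) ∧ |t.v k ω' 0 - t.v k ω 0| ≤ K k * S.dl c k)
    (hent : l - c ≤ ul (S.rt (fun k => Setoid.ker (t.cellv l k)) B))
    (b : ℝ) (hb : 0 ≤ b) (L : ℕ → ℝ) (hL : S.Sub L) :
    ∃ K' : ℕ → ℝ, S.Sub K' ∧ Sp.Typ (fun k ω => ∀ s, |s - t.v k ω 0| ≤ L k * S.dl (c - b) k →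
      Φ (S.dl l k) (A k ω) (pl (a.v k ω) (x.v k ω) s) ≤ K' k * 2 ^ (D' * b * (S.F k).n) *
        Φ (S.dl l k) (A k ω) (pl (a.v k ω) (x.v k ω) (t.v k ω 0))) := by
  classical
  -- the polynomials
  have hex : ∀ k ω, ∃ f : Polynomial ℝ, PdM (A k ω) → (f.natDegree ≤ D' ∧
      ∀ s : ℝ, f.eval s = Φ (S.dl l k) (A k ω) (pl (a.v k ω) (x.v k ω) s)) := by
    intro k ω
    by_cases h : PdM (A k ω)
    · obtain ⟨f, h1, h2⟩ := hΦ1 (S.dl l k) (A k ω) h (Fin.cons 0 (a.v k ω)) (Fin.cons 1 (x.v k ω))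
      exact ⟨f, fun _ => ⟨h1, fun s => by rw [h2, pl_line]⟩⟩
    · exact ⟨0, fun h' => absurd h' h⟩
  choose g hg using hex
  -- entropy defect
  set e : ℕ → ℝ := fun k => max (l - c - S.rt (fun k => Setoid.ker (t.cellv l k)) B k) 0 with he
  have hUB : UB (S.rt (fun k => Setoid.ker (t.cellv l k)) B) := Sp.UB_rt (t.bdd l).toInf B
  have he0 : Tendsto e UF (𝓝 0) := by
    have h1 : Tendsto (fun k => max (l - c - S.rt (fun k => Setoid.ker (t.cellv l k)) B k) 0) UF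
        (𝓝 (max (l - c - ul (S.rt (fun k => Setoid.ker (t.cellv l k)) B)) 0)) :=
      (tendsto_const_nhds.sub (ul_tendsto hUB)).max tendsto_const_nhds
    rw [max_eq_right (by linarith)] at h1
    exact h1
  -- constants
  obtain ⟨T, hT, hTb⟩ := t.bd
  set R : ℕ → ℝ := fun k => T k + 2 * (K k + 1) with hR
  have hRs : S.Sub R := hT.add ((S.Sub_const (show (0 : ℝ) ≤ 2 by norm_num)).mul (hK.add (S.Sub_const zero_le_one)))
  set M : ℕ → ℝ := fun k => (1 + R k) * K k + 1 with hM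
  have hMs : S.Sub M := (((S.Sub_const zero_le_one).add hRs).mul hK).add (S.Sub_const zero_le_one)
  have hκ : S.Sub (fun k => C0 * M k ^ d) := (S.Sub_const hC0).mul (Sub_powN hMs d)
  obtain ⟨K', hK', hTyp⟩ := remez_EC_grow t c l hcl B D' g K (fun k => C0 * M k ^ d) hK hκ e he0
    (Eventually.of_forall fun k => by
      have := le_max_left (l - c - S.rt (fun k => Setoid.ker (t.cellv l k)) B k) 0
      simp only [he]
      linarith)
    (by
      filter_upwards [hA] with k h1 ω hω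
      exact (hg k ω (h1 ω hω)).1)
    (by
      filter_upwards [hB] with k h1 ω ω' a1 a2 a3 a4
      exact (h1 ω ω' a1 a2 a3 a4).2.2.2)
    (by
      filter_upwards [hB, hA, hTb, hK.1, hT.1] with k h1 h2 h3 h4 h5 ω ω' a1 a2 a3 a4 s hs
      obtain ⟨b1, b2, b3, -⟩ := h1 ω ω' a1 a2 a3 a4
      have c1 := (hg k ω (h2 ω a1)).2 s
      have c2 := (hg k ω' (h2 ω' a2)).2 s
      have hd := S.dl_pos l k
      have hdc : S.dl c k ≤ 1 := by
        have := S.dl_anti hc k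
        rwa [S.dl_zero] at this
      have hsR : |s| ≤ R k := by
        have e1 := h3 ω a1 0
        have e2 : 2 * ((K k + 1) * S.dl c k) ≤ 2 * (K k + 1) := by nlinarith
        have e3 : |s| ≤ |s - t.v k ω 0| + |t.v k ω 0| := by
          have := abs_add_le (s - t.v k ω 0) (t.v k ω 0)
          rwa [sub_add_cancel] at this
        simp only [hR]
        linarith
      have hR0 : 0 ≤ R k := (abs_nonneg s).trans hsR
      rw [c1, c2, b1, abs_of_nonneg (hΦ0 _ _ _ (h2 ω a1)), abs_of_nonneg (hΦ0 _ _ _ (h2 ω a1))]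
      apply hΦ2 _ (h2 ω a1) _ _ hd
      · simp only [hM]
        have : 0 ≤ (1 + R k) * K k := by positivity
        linarith
      · intro i
        have e4 := pl_diff (a.v k ω) (x.v k ω) (a.v k ω') (x.v k ω') s (K k * S.dl l k) (R k)
          (by positivity) hsR b2 b3 i
        simp only [hM]
        calc _ ≤ (1 + R k) * (K k * S.dl l k) + S.dl l k := add_le_add e4 le_rfl
          _ = _ := by ring)
    b hb L hL
  refine ⟨K', hK', ?_⟩
  refine squeeze_zero' (Eventually.of_forall fun k => Sp.mass_res_nonneg k _) ?_ hTyp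
  filter_upwards [hA] with k h1
  apply mass_res_mono _ _ _ (S.F k).nn
  intro ω hω hE hcon
  apply hE
  intro s hs
  have c1 := hcon s hs
  rw [(hg k ω (h1 ω hω)).2 s, (hg k ω (h1 ω hω)).2, abs_of_nonneg (hΦ0 _ _ _ (h1 ω hω)),
    abs_of_nonneg (hΦ0 _ _ _ (h1 ω hω))] at c1
  exact c1

/-- REMEZ for `phi` along lines: `t` has full entropy between the levels `c` and `l` given `B`, the form and the
line at level `l` are functions of `B`: typically `phi` at all points of the line in the window of level `c - b` is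
at most `2 ^ (2 D b n + o(n))` times `phi` at the point of the system -/
theorem phi_rem {m D : ℕ} (a x : S.VV m) (t : S.VV 1) (c l : ℝ) (hc : 0 ≤ c) (hcl : c < l)
    (B : ∀ k, Setoid (S.F k).Ω) (A : ∀ k, (S.F k).Ω → Matrix (Mon (m + 1) D) (Mon (m + 1) D) ℝ)
    (hA : ∀ᶠ k in UF, ∀ ω, (S.F k).μ ω ≠ 0 → PdM (A k ω)) (K : ℕ → ℝ) (hK : S.Sub K)
    (hB : ∀ᶠ k in UF, ∀ ω ω', (S.F k).μ ω ≠ 0 → (S.F k).μ ω' ≠ 0 → B k ω' ω → (S.F k).Z ω' ω →
      A k ω' = A k ω ∧ (∀ i, |a.v k ω' i - a.v k ω i| ≤ K k * S.dl l k) ∧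
      (∀ i, |x.v k ω' i - x.v k ω i| ≤ K k * S.dl l k) ∧ |t.v k ω' 0 - t.v k ω 0| ≤ K k * S.dl c k)
    (hent : l - c ≤ ul (S.rt (fun k => Setoid.ker (t.cellv l k)) B))
    (b : ℝ) (hb : 0 ≤ b) (L : ℕ → ℝ) (hL : S.Sub L) :
    ∃ K' : ℕ → ℝ, S.Sub K' ∧ Sp.Typ (fun k ω => ∀ s, |s - t.v k ω 0| ≤ L k * S.dl (c - b) k →
      phi (S.dl l k) (A k ω) (pl (a.v k ω) (x.v k ω) s) ≤ K' k * 2 ^ ((2 * D : ℕ) * b * (S.F k).n) *
        phi (S.dl l k) (A k ω) (pl (a.v k ω) (x.v k ω) (t.v k ω 0))) := by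
  have hc1 := nn_one (m + 1) D
  have hc2 := Cm_one (m + 1) D
  have hc3 := Cu_one D
  refine gen_rem (D' := 2 * D) phi (nn (m + 1) D * (Cu D * Cm (m + 1) D) ^ 2) (2 * D) (by positivity)
    (fun r A p hA => phi_nonneg r hA.nonneg p) (fun r A hA a x => phi_line r A hA a x) ?_ a x t c l hc hcl B A
    hA K hK hB hent b hb L hL
  intro A hA r K hr hK p p' hp
  have h1 := phi_comp A hA r r K hr hr.le hK p p' hp
  calc _ ≤ _ := h1
    _ = _ := by rw [mul_pow (Cu D * Cm (m + 1) D) (K ^ D), ← pow_mul, mul_comm D 2]; ring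

/-- the same for `gam` -/
theorem gam_rem {m D : ℕ} (a x : S.VV m) (t : S.VV 1) (c l : ℝ) (hc : 0 ≤ c) (hcl : c < l)
    (B : ∀ k, Setoid (S.F k).Ω) (A : ∀ k, (S.F k).Ω → Matrix (Mon (m + 1) D) (Mon (m + 1) D) ℝ)
    (hA : ∀ᶠ k in UF, ∀ ω, (S.F k).μ ω ≠ 0 → PdM (A k ω)) (K : ℕ → ℝ) (hK : S.Sub K)
    (hB : ∀ᶠ k in UF, ∀ ω ω', (S.F k).μ ω ≠ 0 → (S.F k).μ ω' ≠ 0 → B k ω' ω → (S.F k).Z ω' ω →
      A k ω' = A k ω ∧ (∀ i, |a.v k ω' i - a.v k ω i| ≤ K k * S.dl l k) ∧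
      (∀ i, |x.v k ω' i - x.v k ω i| ≤ K k * S.dl l k) ∧ |t.v k ω' 0 - t.v k ω 0| ≤ K k * S.dl c k)
    (hent : l - c ≤ ul (S.rt (fun k => Setoid.ker (t.cellv l k)) B))
    (b : ℝ) (hb : 0 ≤ b) (L : ℕ → ℝ) (hL : S.Sub L) :
    ∃ K' : ℕ → ℝ, S.Sub K' ∧ Sp.Typ (fun k ω => ∀ s, |s - t.v k ω 0| ≤ L k * S.dl (c - b) k →
      gam (S.dl l k) (A k ω) (pl (a.v k ω) (x.v k ω) s) ≤ K' k * 2 ^ ((2 * D : ℕ) * b * (S.F k).n) *
        gam (S.dl l k) (A k ω) (pl (a.v k ω) (x.v k ω) (t.v k ω 0))) := by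
  have hc1 := nn_one (m + 1) D
  have hc2 := Cm_one (m + 1) D
  have hc3 := Cu_one D
  refine gen_rem (D' := 2 * D) gam (nn (m + 1) D * (Cu D * Cm (m + 1) D) ^ 2) (2 * D) (by positivity)
    (fun r A p hA => gam_nonneg r hA.nonneg p) (fun r A hA a x => gam_line r A hA a x) ?_ a x t c l hc hcl B A
    hA K hK hB hent b hb L hL
  intro A hA r K hr hK p p' hp
  have h1 := gam_comp A hA r r K hr hr.le hK p p' hp
  calc _ ≤ _ := h1
    _ = _ := by rw [mul_pow (Cu D * Cm (m + 1) D) (K ^ D), ← pow_mul, mul_comm D 2]; ring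

end

end Pool.Agent.Helper3.LF
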