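import Pool.Agent.Helper3.LF.Win

/-! Admissible sequences of labels with forms: subexponential bounds on typical events, change of the label. -/

set_option autoImplicit false

namespace Pool.Agent.Helper3.LF

open Finset Filter Topology Matrix Pool.Agent.Helper69.RK Pool.Agent.Helper31.EC Pool.Agent.Helper40.EL
open Pool.Agent.Helper95.LF Pool.Agent.Helper89.LX

noncomputable section

variable {S : Sp} {ι : Type} [Fintype ι] [DecidableEq ι] (Φ : Gau S ι)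

/-- typical events are events of small complementary probability -/
theorem typ_iff (l : Lab S) (E : ∀ k, (l k).T.Ω → Prop) :
    Sp.Typ (S := l.sp) E ↔ Tendsto (fun k => (l k).T.pb (fun ω => ¬ E k ω)) UF (𝓝 0) := Iff.rfl

theorem typ_and {S : Sp} {E E' : ∀ k, (S.F k).Ω → Prop} (h : Sp.Typ E) (h' : Sp.Typ E') :
    Sp.Typ (fun k ω => E k ω ∧ E' k ω) := by
  have h3 := Tendsto.add h h'
  rw [add_zero] at h3
  refine squeeze_zero' (Eventually.of_forall fun k => Sp.mass_res_nonneg k _) (Eventually.of_forall fun k => ?_) h3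
  refine le_trans (FSp.pb_mono (S.F k) (E' := fun ω => (¬ E k ω) ∨ ¬ E' k ω) ?_) (pb_or (S.F k) _ _)
  intro ω _ h1
  by_cases h2 : E k ω
  · exact Or.inr fun h4 => h1 ⟨h2, h4⟩
  · exact Or.inl h2

theorem typ_mono {S : Sp} {E E' : ∀ k, (S.F k).Ω → Prop} (h : Sp.Typ E)
    (hh : ∀ᶠ k in UF, ∀ ω, (S.F k).μ ω ≠ 0 → E k ω → E' k ω) : Sp.Typ E' := by
  refine squeeze_zero' (Eventually.of_forall fun k => Sp.mass_res_nonneg k _) ?_ h
  filter_upwards [hh] with k hk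
  apply FSp.pb_mono (S.F k)
  intro ω hω h1 h2
  exact h1 (hk ω hω h2)

/-- the labels of a sequence of labels with forms -/
def lb (x : ∀ k, FD (S.F k) ι) : Lab S := fun k => (x k).l

/-- a family of conditions which hold typically for every parameter hold typically for a sequence of parameters which
tends to zero -/
theorem typ_diag {S : Sp} (E : ℝ → ∀ k, (S.F k).Ω → Prop) (h : ∀ e : ℝ, 0 < e → Sp.Typ (E e)) :
    ∃ e : ℕ → ℝ, Tendsto e UF (𝓝 0) ∧ (∀ k, 0 < e k) ∧ Sp.Typ (fun k => E (e k) k) := by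
  obtain ⟨J, hJ, hG⟩ := dia (fun j k => (S.F k).pb (fun ω => ¬ E (1 / ((j : ℝ) + 1)) k ω) ≤ 1 / ((j : ℝ) + 1))
    (fun j => by
      have hj : (0 : ℝ) < 1 / ((j : ℝ) + 1) := by positivity
      exact ((h _ hj).eventually (gt_mem_nhds hj)).mono fun k hk => hk.le)
  have h0 : Tendsto (fun k => 1 / ((J k : ℝ) + 1)) UF (𝓝 0) := tendsto_one_div_add_atTop_nhds_zero_nat.comp hJ
  refine ⟨fun k => 1 / ((J k : ℝ) + 1), h0, fun k => by positivity, ?_⟩
  refine squeeze_zero' (Eventually.of_forall fun k => Sp.mass_res_nonneg k _) ?_ h0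
  filter_upwards [hG] with k hk using hk (J k) le_rfl

/-- upper bounds: `f ≤ 2 ^ (e n)` typically for all `e > 0` -/
theorem typ_sub_le {S : Sp} (f : ∀ k, (S.F k).Ω → ℝ)
    (h : ∀ e : ℝ, 0 < e → Sp.Typ (fun k ω => f k ω ≤ 2 ^ (e * (S.F k).n))) :
    ∃ K : ℕ → ℝ, S.Sub K ∧ Sp.Typ (fun k ω => f k ω ≤ K k) := by
  obtain ⟨e, he, he0, hT⟩ := typ_diag (fun e k ω => f k ω ≤ 2 ^ (e * (S.F k).n)) h
  exact ⟨fun k => 2 ^ (e k * (S.F k).n), Sub_pow_two he (Eventually.of_forall fun k => (he0 k).le), hT⟩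

/-- lower bounds: `2 ^ ((v - e) n) ≤ f` typically for all `e > 0` -/
theorem typ_sub_ge {S : Sp} (f : ∀ k, (S.F k).Ω → ℝ) (v : ℝ)
    (h : ∀ e : ℝ, 0 < e → Sp.Typ (fun k ω => 2 ^ ((v - e) * (S.F k).n) ≤ f k ω)) :
    ∃ K : ℕ → ℝ, S.Sub K ∧ (∀ k, 1 ≤ K k) ∧ Sp.Typ (fun k ω => 2 ^ (v * (S.F k).n) ≤ K k * f k ω) := by
  obtain ⟨e, he, he0, hT⟩ := typ_diag (fun e k ω => 2 ^ ((v - e) * (S.F k).n) ≤ f k ω) h
  refine ⟨fun k => 2 ^ (e k * (S.F k).n), Sub_pow_two he (Eventually.of_forall fun k => (he0 k).le),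
    fun k => Real.one_le_rpow (by norm_num) (mul_nonneg (he0 k).le (S.F k).pos.le), ?_⟩
  refine typ_mono hT (Eventually.of_forall fun k ω _ h1 => ?_)
  have h2 : (2 : ℝ) ^ (v * (S.F k).n) = 2 ^ (e k * (S.F k).n) * 2 ^ ((v - e k) * (S.F k).n) := by
    rw [← Real.rpow_add (by norm_num)]
    congr 1; ring
  rw [h2]
  exact mul_le_mul_of_nonneg_left h1 (by positivity)

/-- subexponential factors are at most `2 ^ (e n)` typically -/
theorem typ_of_sub_le {S : Sp} {f : ∀ k, (S.F k).Ω → ℝ} {K : ℕ → ℝ} (hK : S.Sub K)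
    (h : Sp.Typ (fun k ω => f k ω ≤ K k)) (e : ℝ) (he : 0 < e) :
    Sp.Typ (fun k ω => f k ω ≤ 2 ^ (e * (S.F k).n)) := by
  refine typ_mono h ?_
  filter_upwards [hK.eventually_le he] with k hk ω _ h1
  linarith

theorem typ_of_sub_ge {S : Sp} {f : ∀ k, (S.F k).Ω → ℝ} {K : ℕ → ℝ} (hK : S.Sub K) (v : ℝ)
    (hf : ∀ᶠ k in UF, ∀ ω, (S.F k).μ ω ≠ 0 → 0 ≤ f k ω)
    (h : Sp.Typ (fun k ω => 2 ^ (v * (S.F k).n) ≤ K k * f k ω)) (e : ℝ) (he : 0 < e) :
    Sp.Typ (fun k ω => 2 ^ ((v - e) * (S.F k).n) ≤ f k ω) := by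
  refine typ_mono h ?_
  filter_upwards [hK.eventually_le he, hf] with k hk h0 ω hω h1
  have h2 : (2 : ℝ) ^ (v * (S.F k).n) = 2 ^ (e * (S.F k).n) * 2 ^ ((v - e) * (S.F k).n) := by
    rw [← Real.rpow_add (by norm_num)]
    congr 1; ring
  rw [h2] at h1
  have h3 : K k * f k ω ≤ 2 ^ (e * (S.F k).n) * f k ω := mul_le_mul_of_nonneg_right (by linarith) (h0 ω hω)
  exact le_of_mul_le_mul_left (h1.trans h3) (by positivity)

variable {Φ}

/-- the forms of an admissible sequence are subexponential typically -/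
theorem ad_sub {A B : Part S} {x : ∀ k, FD (S.F k) ι} (hx : Φ.Ad A B x) :
    ∃ K : ℕ → ℝ, S.Sub K ∧ Sp.Typ (S := (lb x).sp)
      (fun k (ω : (x k).l.T.Ω) => Φ.φ k ((x k).l.p.π ω) ((x k).g ω) ≤ K k) := by
  obtain ⟨K, hK, hT⟩ := typ_sub_le (S := (lb x).sp)
    (fun k (ω : (x k).l.T.Ω) => Φ.φ k ((x k).l.p.π ω) ((x k).g ω)) (fun e he => by
      show Tendsto (fun k => (x k).l.T.pb (fun ω => ¬ Φ.φ k ((x k).l.p.π ω) ((x k).g ω) ≤
        2 ^ (e * ((lb x).sp.F k).n))) UF (𝓝 0)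
      rw [Metric.tendsto_nhds]
      intro ε hε
      filter_upwards [hx (min e (ε / 2)) (lt_min he (by linarith))] with k hk
      rw [Real.dist_eq, sub_zero, abs_of_nonneg ((x k).l.T.pb_nonneg _)]
      have h1 := hk.2.2.2.1
      have h2 : min e (ε / 2) ≤ ε / 2 := min_le_right _ _
      refine lt_of_le_of_lt (le_trans (FSp.pb_mono _ ?_) h1) (by linarith)
      intro ω _ h3 h4
      apply h3
      refine h4.trans ?_
      rw [sp_n]
      apply Real.rpow_le_rpow_of_exponent_le (by norm_num)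
      exact mul_le_mul_of_nonneg_right (min_le_left _ _) (S.F k).pos.le)
  exact ⟨K, (sp_Sub _).mp hK, hT⟩

/-- labels with one form -/
def mkFD {F : FSp} (l : FLab F) (g : l.T.Ω → Matrix ι ι ℝ)
    (h : ∀ ω ω', l.T.μ ω ≠ 0 → l.T.μ ω' ≠ 0 → l.V ω ω' → l.T.Z ω ω' → g ω = g ω') : FD F ι where
  l := l
  g := g
  g' := g
  meas := fun ω ω' a b c d => ⟨h ω ω' a b c d, h ω ω' a b c d⟩

/-- admissibility from typical bounds -/
theorem ad_mk {A B : Part S} (x : ∀ k, FD (S.F k) ι) (hl : (lb x).DM A B)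
    (hg : ∀ k, (x k).g' = (x k).g) (hc : ∀ᶠ k in UF, ∀ ω, (x k).l.T.μ ω ≠ 0 → Cpd (Φ.cp k) ((x k).g ω))
    (K : ℕ → ℝ) (hK : S.Sub K) (hT : Sp.Typ (S := (lb x).sp)
      (fun k (ω : (x k).l.T.Ω) => Φ.φ k ((x k).l.p.π ω) ((x k).g ω) ≤ K k)) : Φ.Ad A B x := by
  intro η hη
  have h1 : Tendsto (fun k => (x k).l.leak (A k) / (S.F k).n) UF (𝓝 0) := hl.1
  have h2 : Tendsto (fun k => (x k).l.leak (B k) / (S.F k).n) UF (𝓝 0) := hl.2
  have h3 : Tendsto (fun k => (x k).l.T.pb (fun ω => ¬ Φ.φ k ((x k).l.p.π ω) ((x k).g ω) ≤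
      2 ^ (η * ((lb x).sp.F k).n))) UF (𝓝 0) := typ_of_sub_le ((sp_Sub (lb x)).mpr hK) hT η hη
  filter_upwards [h1.eventually (gt_mem_nhds hη), h2.eventually (gt_mem_nhds hη), hc,
    h3.eventually (gt_mem_nhds hη)] with k a b c d
  have hn := (S.F k).pos
  rw [div_lt_iff₀ hn] at a b
  rw [sp_n] at d
  exact ⟨a.le, b.le, fun ω hω => ⟨c ω hω, by rw [hg]; exact c ω hω⟩, d.le, by rw [hg]; exact d.le⟩

end

end Pool.Agent.Helper3.LF
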