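import Mathlib

/-! Polynomials in several variables: partial derivatives, restriction to lines. -/

set_option autoImplicit false

namespace Pool.Agent.Helper3.LF

open MvPolynomial

variable {N : ℕ}

theorem tdeg_pderiv (i : Fin N) (q : MvPolynomial (Fin N) ℝ) (d : ℕ) (h : q.totalDegree ≤ d + 1) :
    (pderiv i q).totalDegree ≤ d := by
  classical
  conv_lhs => rw [q.as_sum, map_sum]
  refine totalDegree_finsetSum_le (fun s hs => ?_)
  rw [pderiv_monomial]
  by_cases hsi : s i = 0
  · rw [hsi]
    simp
  · refine (totalDegree_monomial_le _ _).trans ?_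
    have h1 : (s.sum fun _ e => e) ≤ d + 1 := (le_totalDegree hs).trans h
    have h2 : s = (s - Finsupp.single i 1) + Finsupp.single i 1 := by
      ext k
      simp only [Finsupp.coe_add, Finsupp.coe_tsub, Pi.add_apply, Pi.sub_apply]
      by_cases hk : i = k
      · subst hk
        simp
        omega
      · simp [hk]
    rw [h2, Finsupp.sum_add_index' (fun _ => rfl) (fun _ _ _ => rfl), Finsupp.sum_single_index rfl] at h1
    change ((s - Finsupp.single i 1).sum fun _ e => e) ≤ d
    omega

/-- restriction to the line `a + t x` -/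
noncomputable def lin (a x : Fin N → ℝ) (q : MvPolynomial (Fin N) ℝ) : Polynomial ℝ :=
  aeval (fun k => Polynomial.C (a k) + Polynomial.C (x k) * Polynomial.X) q

theorem lin_C (a x : Fin N → ℝ) (c : ℝ) : lin a x (C c) = Polynomial.C c := by
  unfold lin
  rw [aeval_C]
  rfl

theorem lin_add (a x : Fin N → ℝ) (p q : MvPolynomial (Fin N) ℝ) :
    lin a x (p + q) = lin a x p + lin a x q := by
  unfold lin
  rw [map_add]

theorem lin_mul (a x : Fin N → ℝ) (p q : MvPolynomial (Fin N) ℝ) :
    lin a x (p * q) = lin a x p * lin a x q := by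
  unfold lin
  rw [map_mul]

theorem lin_X (a x : Fin N → ℝ) (k : Fin N) :
    lin a x (X k) = Polynomial.C (a k) + Polynomial.C (x k) * Polynomial.X := by
  unfold lin
  rw [aeval_X]

theorem eval_lin (a x : Fin N → ℝ) (q : MvPolynomial (Fin N) ℝ) (t : ℝ) :
    (lin a x q).eval t = eval (fun k => a k + t * x k) q := by
  induction q using MvPolynomial.induction_on with
  | C c => rw [lin_C, Polynomial.eval_C, eval_C]
  | add p q hp hq => rw [lin_add, Polynomial.eval_add, hp, hq, map_add]
  | mul_X p k hp =>
    rw [lin_mul, Polynomial.eval_mul, hp, lin_X, map_mul, eval_X]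
    simp
    left
    ring

theorem deriv_lin (a x : Fin N → ℝ) (q : MvPolynomial (Fin N) ℝ) :
    Polynomial.derivative (lin a x q) = ∑ k, Polynomial.C (x k) * lin a x (pderiv k q) := by
  classical
  induction q using MvPolynomial.induction_on with
  | C c =>
    rw [lin_C, Polynomial.derivative_C]
    symm
    refine Finset.sum_eq_zero (fun k _ => ?_)
    rw [pderiv_C]
    unfold lin
    rw [map_zero, mul_zero]
  | add p q hp hq =>
    rw [lin_add, Polynomial.derivative_add, hp, hq, ← Finset.sum_add_distrib]
    refine Finset.sum_congr rfl (fun k _ => ?_)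
    rw [map_add, lin_add, mul_add]
  | mul_X p j hp =>
    rw [lin_mul, Polynomial.derivative_mul, hp, lin_X]
    have h1 : ∀ k, Polynomial.C (x k) * lin a x (pderiv k (p * X j)) =
        Polynomial.C (x k) * lin a x (pderiv k p) *
          (Polynomial.C (a j) + Polynomial.C (x j) * Polynomial.X) +
        (if k = j then Polynomial.C (x j) * lin a x p else 0) := by
      intro k
      rw [pderiv_mul, lin_add, lin_mul, lin_mul, lin_X]
      by_cases hk : k = j
      · subst hk
        rw [if_pos rfl, pderiv_X_self]
        have : lin a x (1 : MvPolynomial (Fin N) ℝ) = 1 := by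
          unfold lin
          rw [map_one]
        rw [this]
        ring
      · rw [if_neg hk, pderiv_X_of_ne (fun h => hk h.symm)]
        have : lin a x (0 : MvPolynomial (Fin N) ℝ) = 0 := by
          unfold lin
          rw [map_zero]
        rw [this]
        ring
    rw [Finset.sum_congr rfl (fun k _ => h1 k), Finset.sum_add_distrib, Finset.sum_ite_eq',
      if_pos (Finset.mem_univ j), Finset.sum_mul]
    congr 1
    simp
    ring

theorem natDegree_lin (a x : Fin N → ℝ) (q : MvPolynomial (Fin N) ℝ) :
    (lin a x q).natDegree ≤ q.totalDegree := by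
  classical
  conv_lhs => rw [q.as_sum]
  have hsum : lin a x (∑ s ∈ q.support, monomial s (coeff s q)) =
      ∑ s ∈ q.support, lin a x (monomial s (coeff s q)) := by
    unfold lin
    rw [map_sum]
  rw [hsum]
  refine Polynomial.natDegree_sum_le_of_forall_le _ _ (fun s hs => ?_)
  refine le_trans ?_ (le_totalDegree hs)
  unfold lin
  rw [aeval_monomial]
  refine (Polynomial.natDegree_mul_le).trans ?_
  have h1 : (algebraMap ℝ (Polynomial ℝ) (coeff s q)).natDegree = 0 := Polynomial.natDegree_C _
  rw [h1, zero_add]
  unfold Finsupp.prod Finsupp.sum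
  refine (Polynomial.natDegree_prod_le _ _).trans (Finset.sum_le_sum (fun k _ => ?_))
  refine Polynomial.natDegree_pow_le.trans ?_
  have h2 : (Polynomial.C (a k) + Polynomial.C (x k) * Polynomial.X : Polynomial ℝ).natDegree ≤ 1 := by
    refine (Polynomial.natDegree_add_le _ _).trans ?_
    rw [Polynomial.natDegree_C]
    refine max_le (Nat.zero_le _) ?_
    exact (Polynomial.natDegree_C_mul_le _ _).trans Polynomial.natDegree_X_le
  calc s k * _ ≤ s k * 1 := Nat.mul_le_mul_left _ h2
    _ = s k := mul_one _

/-- the coordinate line -/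
noncomputable def lne (p : Fin N → ℝ) (i : Fin N) (q : MvPolynomial (Fin N) ℝ) : Polynomial ℝ :=
  lin p (Pi.single i 1) q

theorem deriv_lne (p : Fin N → ℝ) (i : Fin N) (q : MvPolynomial (Fin N) ℝ) :
    Polynomial.derivative (lne p i q) = lne p i (pderiv i q) := by
  unfold lne
  rw [deriv_lin, Finset.sum_eq_single i]
  · simp
  · intro k _ hk
    simp [Pi.single_eq_of_ne hk]
  · intro h
    exact absurd (Finset.mem_univ i) h

theorem iter_lne (p : Fin N → ℝ) (i : Fin N) (q : MvPolynomial (Fin N) ℝ) (j : ℕ) :
    Polynomial.derivative^[j] (lne p i q) = lne p i ((fun q => pderiv i q)^[j] q) := by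
  induction j with
  | zero => rfl
  | succ j ih => rw [Function.iterate_succ_apply', ih, deriv_lne, Function.iterate_succ_apply']

theorem eval_lne (p : Fin N → ℝ) (i : Fin N) (q : MvPolynomial (Fin N) ℝ) (t : ℝ) :
    (lne p i q).eval t = eval (Function.update p i (p i + t)) q := by
  unfold lne
  rw [eval_lin]
  congr 1
  congr 1
  funext k
  by_cases hk : k = i
  · subst hk
    simp
  · rw [Pi.single_eq_of_ne hk, Function.update_of_ne hk]
    ring

end Pool.Agent.Helper3.LF
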