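import Pool.Agent.Helper3.LF.Adm
import Pool.Agent.Helper59.LF.Speed

/-! The lemma SPEED, polynomial part: rows, rank one forms, subtraction of a constant. -/

set_option autoImplicit false

namespace Pool.Agent.Helper3.LF

open MvPolynomial Matrix Pool.Agent.Helper95.LF
open Pool.Agent.Helper89.LX (qf Psd Cpd dot_self_nonneg)
open Pool.Agent.Helper59.LF (mvb alg pnt eval_alg)

noncomputable section

variable {N D : ℕ}

/-- the monomial `1` -/
theorem mon_zero (N D : ℕ) : (Mon.zero N D).mon = 1 := by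
  unfold Mon.mon
  have h1 : (Mon.zero N D).ex = 0 := by
    ext i
    rw [Mon.ex_apply]
    rfl
  rw [h1]
  rfl

theorem dd_zero (i : Fin N) (p : Fin N → ℝ) : dd i p (Mon.zero N D) = 0 := by
  unfold dd
  rw [mon_zero, ← C_1, pderiv_C, map_zero]

open Classical in
/-- the coefficient vector of `q - c` -/
def shf (v : Mon N D → ℝ) (c : ℝ) : Mon N D → ℝ := fun a => v a - if a = Mon.zero N D then c else 0

theorem shf_dot (v : Mon N D → ℝ) (c : ℝ) (y : Mon N D → ℝ) : shf v c ⬝ᵥ y = v ⬝ᵥ y - c * y (Mon.zero N D) := by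
  classical
  unfold shf dotProduct
  have h1 : ∀ a : Mon N D, (v a - if a = Mon.zero N D then c else 0) * y a =
      v a * y a - (if a = Mon.zero N D then c else 0) * y a := fun a => by ring
  rw [Finset.sum_congr rfl (fun a _ => h1 a), Finset.sum_sub_distrib]
  congr 1
  rw [Finset.sum_eq_single (Mon.zero N D)]
  · rw [if_pos rfl]
  · intro b _ hb
    rw [if_neg hb, zero_mul]
  · intro h
    exact absurd (Finset.mem_univ _) h

theorem eval_shf (v : Mon N D → ℝ) (c : ℝ) (p : Fin N → ℝ) : eval p (pol (shf v c)) = eval p (pol v) - c := by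
  rw [eval_pol, eval_pol, shf_dot, vv_zero, mul_one]

theorem ph_shf (v : Mon N D → ℝ) (c r : ℝ) (p : Fin N → ℝ) (i : Fin N) :
    ph D (pderiv i (pol (shf v c))) r p = ph D (pderiv i (pol v)) r p := by
  unfold ph
  refine Finset.sum_congr rfl fun j _ => ?_
  rw [eval_pderiv_pol, eval_pderiv_pol, shf_dot, dd_zero, mul_zero, sub_zero]

theorem ga_shf (v : Mon N D → ℝ) (c r : ℝ) (p : Fin N → ℝ) : ga D (pol (shf v c)) r p = ga D (pol v) r p := by
  unfold ga
  exact Finset.sum_congr rfl fun i _ => ph_shf v c r p i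

/-- rank one forms -/
def rk1 (w : ℝ) (v : Mon N D → ℝ) : Matrix (Mon N D) (Mon N D) ℝ := w • Matrix.vecMulVec v v

theorem qf_rk1 (w : ℝ) (v x : Mon N D → ℝ) : x ⬝ᵥ (rk1 w v *ᵥ x) = w * (v ⬝ᵥ x) ^ 2 := by
  unfold rk1
  rw [Matrix.smul_mulVec, dotProduct_smul, Matrix.vecMulVec_mulVec, smul_eq_mul]
  have h1 : x ⬝ᵥ (MulOpposite.op (v ⬝ᵥ x) • v) = (v ⬝ᵥ x) * (x ⬝ᵥ v) := by
    rw [dotProduct_smul]
    show (x ⬝ᵥ v) * (v ⬝ᵥ x) = _
    ring
  rw [h1, dotProduct_comm x v]
  ring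

theorem rk1_symm (w : ℝ) (v : Mon N D → ℝ) : (rk1 w v).IsSymm := by
  unfold rk1
  apply Matrix.IsSymm.smul
  ext i j
  show v j * v i = v i * v j
  ring

theorem phi_rk1 (r w : ℝ) (v : Mon N D → ℝ) (p : Fin N → ℝ) : phi r (rk1 w v) p = w * ph D (pol v) r p := by
  unfold phi ph
  rw [Finset.mul_sum]
  refine Finset.sum_congr rfl fun j _ => ?_
  rw [qf_rk1, eval_pol]

theorem gam_rk1 (r w : ℝ) (v : Mon N D → ℝ) (p : Fin N → ℝ) : gam r (rk1 w v) p = w * ga D (pol v) r p := by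
  unfold gam ga
  rw [Finset.mul_sum]
  refine Finset.sum_congr rfl fun i _ => ?_
  unfold ph
  rw [Finset.mul_sum]
  refine Finset.sum_congr rfl fun j _ => ?_
  rw [qf_rk1, eval_pderiv_pol]

/-- the rows of a form -/
def rws (A : Matrix (Mon N D) (Mon N D) ℝ) : Matrix (Mon N D) (Mon N D) ℝ :=
  open Classical in if h : PdM A then (exists_rows A h).choose else 0

theorem rws_phi {A : Matrix (Mon N D) (Mon N D) ℝ} (h : PdM A) (r : ℝ) (p : Fin N → ℝ) :
    phi r A p = ∑ k, ph D (pol (rws A k)) r p := by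
  unfold rws
  rw [dif_pos h]
  exact (exists_rows A h).choose_spec.2.1 r p

theorem rws_gam {A : Matrix (Mon N D) (Mon N D) ℝ} (h : PdM A) (r : ℝ) (p : Fin N → ℝ) :
    gam r A p = ∑ k, ga D (pol (rws A k)) r p := by
  unfold rws
  rw [dif_pos h]
  exact (exists_rows A h).choose_spec.2.2 r p

theorem rws_ph_le {A : Matrix (Mon N D) (Mon N D) ℝ} (h : PdM A) (r : ℝ) (p : Fin N → ℝ) (k : Mon N D) :
    ph D (pol (rws A k)) r p ≤ phi r A p := by
  rw [rws_phi h]
  exact Finset.single_le_sum (f := fun k => ph D (pol (rws A k)) r p) (fun _ _ => ph_nonneg _ _ _)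
    (Finset.mem_univ k)

/-- the row with the largest gradient -/
theorem exists_max_row (A : Matrix (Mon N D) (Mon N D) ℝ) (r : ℝ) (p : Fin N → ℝ) :
    ∃ k : Mon N D, PdM A → gam r A p ≤ Fintype.card (Mon N D) * ga D (pol (rws A k)) r p := by
  classical
  obtain ⟨k, -, hk⟩ := Finset.exists_max_image (Finset.univ : Finset (Mon N D))
    (fun k => ga D (pol (rws A k)) r p) Finset.univ_nonempty
  refine ⟨k, fun h => ?_⟩
  rw [rws_gam h]
  refine (Finset.sum_le_card_nsmul _ _ _ fun j hj => hk j hj).trans (le_of_eq ?_)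
  rw [nsmul_eq_mul, Finset.card_univ]

def mrow (A : Matrix (Mon N D) (Mon N D) ℝ) (r : ℝ) (p : Fin N → ℝ) : Mon N D := (exists_max_row A r p).choose

theorem mrow_spec {A : Matrix (Mon N D) (Mon N D) ℝ} (h : PdM A) (r : ℝ) (p : Fin N → ℝ) :
    gam r A p ≤ Fintype.card (Mon N D) * ga D (pol (rws A (mrow A r p))) r p :=
  (exists_max_row A r p).choose_spec h

/-- gradient bounds near the point from the size of the gradient -/
theorem grad_near (q : MvPolynomial (Fin N) ℝ) (hq : q.totalDegree ≤ D) (r R : ℝ) (hr : 0 < r) (hR : 1 ≤ R)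
    (p y : Fin N → ℝ) (hy : ∀ j, |y j - p j| ≤ R * r) (i : Fin N) :
    |eval y (pderiv i q)| ≤ Cu D * Cm N D * R ^ D * Real.sqrt (ga D q r p) := by
  have h1 := gro_le (D := D) (pderiv i q) (pderiv_tdeg q hq i) r R hr hR p y hy
  have h2 : ph D (pderiv i q) r p ≤ ga D q r p := by
    unfold ga
    exact Finset.single_le_sum (f := fun i => ph D (pderiv i q) r p) (fun _ _ => ph_nonneg _ _ _)
      (Finset.mem_univ i)
  have h3 := Cu_one D
  have h4 := Cm_one N D
  have h5 : (eval y (pderiv i q)) ^ 2 ≤ (Cu D * Cm N D * R ^ D) ^ 2 * ga D q r p :=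
    h1.trans (mul_le_mul_of_nonneg_left h2 (by positivity))
  calc |eval y (pderiv i q)| = Real.sqrt ((eval y (pderiv i q)) ^ 2) := (Real.sqrt_sq_eq_abs _).symm
    _ ≤ Real.sqrt ((Cu D * Cm N D * R ^ D) ^ 2 * ga D q r p) := Real.sqrt_le_sqrt h5
    _ = _ := by rw [Real.sqrt_mul (by positivity), Real.sqrt_sq (by positivity)]

/-- value at the point -/
theorem val_at (q : MvPolynomial (Fin N) ℝ) (hq : q.totalDegree ≤ D) (r : ℝ) (hr : 0 < r) (p : Fin N → ℝ) :
    |eval p q| ≤ Cm N D * Real.sqrt (ph D q r p) := by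
  have h1 := val_le (D := D) q hq r 1 hr le_rfl p p (fun i => by rw [sub_self, abs_zero, one_mul]; exact hr.le)
  have h2 := Cm_one N D
  rw [one_pow, mul_one] at h1
  calc |eval p q| = Real.sqrt ((eval p q) ^ 2) := (Real.sqrt_sq_eq_abs _).symm
    _ ≤ Real.sqrt ((Cm N D) ^ 2 * ph D q r p) := Real.sqrt_le_sqrt h1
    _ = _ := by rw [Real.sqrt_mul (by positivity), Real.sqrt_sq (by positivity)]

/-- derivative along the line in a smaller window -/
theorem der_line {m : ℕ} (q : MvPolynomial (Fin (m + 1)) ℝ) (hq : q.totalDegree ≤ D) (a x : Fin m → ℝ) (t r δ M : ℝ)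
    (hr : 0 < r) (hδ : 0 ≤ δ) (hδ1 : δ ≤ 1) (hM : ∀ u, |u - t| ≤ r → |eval (pl a x u) q| ≤ M) (u : ℝ)
    (hu : |u - t| ≤ r * δ) :
    |(Polynomial.derivative (alg a x q)).eval u| * (r * δ) ≤ Cu D * M * δ := by
  have h1 := uni_affine D (alg a x q) ((natDegree_lin _ _ q).trans hq) 1 t r 1 u M hr le_rfl
    (by rw [one_mul]; exact hu.trans (by nlinarith)) (by
      intro j hj
      rw [eval_alg]
      apply hM
      have e1 : t + r * nod D j - t = r * nod D j := by ring
      rw [e1, abs_mul, abs_of_pos hr, abs_of_nonneg (nod_nonneg D j)]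
      have := nod_le D j hj
      nlinarith)
  rw [one_pow, mul_one, pow_one] at h1
  have h2 : Polynomial.derivative^[1] (alg a x q) = Polynomial.derivative (alg a x q) := rfl
  rw [h2] at h1
  calc |(Polynomial.derivative (alg a x q)).eval u| * (r * δ) =
      (r * |(Polynomial.derivative (alg a x q)).eval u|) * δ := by ring
    _ ≤ _ := mul_le_mul_of_nonneg_right h1 hδ

/-- size of `q - c` on the cell -/
theorem ph_shf_le (v : Mon N D → ℝ) (c r R ρ K : ℝ) (hr : 0 < r) (hR : 1 ≤ R) (hρ : 0 ≤ ρ) (hK : 0 ≤ K)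
    (p : Fin N → ℝ) (h0 : |eval p (pol v) - c| ≤ ρ)
    (h1 : ∀ i, ∀ y : Fin N → ℝ, (∀ j, |y j - p j| ≤ R * r) → R * r * |eval y (pderiv i (pol v))| ≤ K * ρ) :
    ph D (pol (shf v c)) r p ≤ nn N D * ((1 + N * K) * ρ) ^ 2 := by
  unfold ph
  refine (Finset.sum_le_card_nsmul _ _ (((1 + N * K) * ρ) ^ 2) fun j _ => ?_).trans (le_of_eq ?_)
  · rw [eval_shf, ← sq_abs]
    apply pow_le_pow_left₀ (abs_nonneg _)
    have h2 := mvb (pol v) p (nodp D p r j) (R * r) (K * ρ) (mul_nonneg hK hρ) (by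
      intro i
      unfold nodp
      have e1 : p i + r * nod D (j i) - p i = r * nod D (j i) := by ring
      rw [e1, abs_mul, abs_of_pos hr, abs_of_nonneg (nod_nonneg D _)]
      have := nod_le D (j i) (Nat.le_of_lt_succ (j i).2)
      nlinarith) h1
    have e2 : eval (nodp D p r j) (pol v) - c = (eval (nodp D p r j) (pol v) - eval p (pol v)) +
        (eval p (pol v) - c) := by ring
    rw [e2]
    refine (abs_add_le _ _).trans ?_
    nlinarith
  · rw [nsmul_eq_mul, card_nodes]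

/-- the form `1 + w q' q'^T` -/
def nfm (w : ℝ) (v : Mon N D → ℝ) : Matrix (Mon N D) (Mon N D) ℝ := 1 + rk1 w v

theorem nfm_symm (w : ℝ) (v : Mon N D → ℝ) : (nfm w v).IsSymm := Matrix.isSymm_one.add (rk1_symm w v)

theorem nfm_one_le {w : ℝ} (hw : 0 ≤ w) (v x : Mon N D → ℝ) : x ⬝ᵥ x ≤ qf (nfm w v) x := by
  unfold qf nfm
  rw [Matrix.add_mulVec, dotProduct_add, Matrix.one_mulVec, qf_rk1]
  have := mul_nonneg hw (sq_nonneg (v ⬝ᵥ x))
  linarith

theorem nfm_phi (r w : ℝ) (v : Mon N D → ℝ) (p : Fin N → ℝ) :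
    phi r (nfm w v) p = phi r (1 : Matrix (Mon N D) (Mon N D) ℝ) p + w * ph D (pol v) r p := by
  unfold nfm
  rw [phi_add, phi_rk1]

theorem nfm_gam {r w : ℝ} (v : Mon N D → ℝ) (p : Fin N → ℝ) :
    w * ga D (pol v) r p ≤ gam r (nfm w v) p := by
  unfold nfm
  rw [gam_add, gam_rk1]
  have h1 : 0 ≤ gam r (1 : Matrix (Mon N D) (Mon N D) ℝ) p := gam_nonneg r (fun x => by
    rw [Matrix.one_mulVec]
    exact dot_self_nonneg x) p
  linarith

end

end Pool.Agent.Helper3.LF
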