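import Pool.Agent.Helper3.LF.Uni
import Pool.Agent.Helper3.LF.Lin

/-! Polynomials in several variables on cells: values and first derivatives on the `K`-fold enlargement
of a cell are controlled by the values at the nodes of the cell. (LEAF (0.1)) -/

set_option autoImplicit false

namespace Pool.Agent.Helper3.LF

open MvPolynomial

variable {N : ℕ}

/-- node number `j` of the cell with corner `p` and side `r` -/
noncomputable def nodp (D : ℕ) (p : Fin N → ℝ) (r : ℝ) (j : Fin N → Fin (D + 1)) : Fin N → ℝ :=
  fun i => p i + r * nod D (j i)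

theorem natDegree_lne (p : Fin N → ℝ) (i : Fin N) (q : MvPolynomial (Fin N) ℝ) :
    (lne p i q).natDegree ≤ q.totalDegree := natDegree_lin _ _ _

/-- one coordinate: value or derivative -/
theorem coord_bound (D : ℕ) (q : MvPolynomial (Fin N) ℝ) (hq : q.totalDegree ≤ D) (i : Fin N)
    (p y : Fin N → ℝ) (r K M : ℝ) (hr : 0 < r) (hK : 1 ≤ K) (hy : |y i - p i| ≤ K * r)
    (hM : ∀ j ≤ D, |eval (Function.update y i (p i + r * nod D j)) q| ≤ M) (k : ℕ) :
    r ^ k * |eval y ((fun q => pderiv i q)^[k] q)| ≤ Cu D * K ^ D * M := by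
  have h1 := uni_affine D (lne y i q) ((natDegree_lne y i q).trans hq) k (p i - y i) r K 0 M hr hK
    (by
      have : (0 : ℝ) - (p i - y i) = y i - p i := by ring
      rw [this]
      exact hy)
    (by
      intro j hj
      rw [eval_lne]
      have : y i + (p i - y i + r * nod D j) = p i + r * nod D j := by ring
      rw [this]
      exact hM j hj)
  rw [iter_lne, eval_lne, add_zero, Function.update_eq_self] at h1
  exact h1

/-- all coordinates -/
theorem cell_aux (D : ℕ) (q : MvPolynomial (Fin N) ℝ) (hq : q.totalDegree ≤ D)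
    (p : Fin N → ℝ) (r K M : ℝ) (hr : 0 < r) (hK : 1 ≤ K)
    (hM : ∀ j : Fin N → Fin (D + 1), |eval (nodp D p r j) q| ≤ M) (S : Finset (Fin N)) :
    ∀ y : Fin N → ℝ, (∀ i ∈ S, |y i - p i| ≤ K * r) →
      (∀ i ∉ S, ∃ j : Fin (D + 1), y i = p i + r * nod D j) →
      |eval y q| ≤ (Cu D * K ^ D) ^ S.card * M := by
  classical
  induction S using Finset.induction_on with
  | empty =>
    intro y _ h2
    choose j hj using fun i => h2 i (Finset.notMem_empty i)
    have h3 : y = nodp D p r j := by
      funext i
      exact hj i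
    rw [h3, Finset.card_empty, pow_zero, one_mul]
    exact hM j
  | insert i S hi ih =>
    intro y h1 h2
    have h3 : ∀ j ≤ D, |eval (Function.update y i (p i + r * nod D j)) q| ≤
        (Cu D * K ^ D) ^ S.card * M := by
      intro j hj
      apply ih
      · intro k hk
        have hki : k ≠ i := fun h => hi (h ▸ hk)
        rw [Function.update_of_ne hki]
        exact h1 k (Finset.mem_insert_of_mem hk)
      · intro k hk
        by_cases hki : k = i
        · subst hki
          exact ⟨⟨j, Nat.lt_succ_of_le hj⟩, by rw [Function.update_self]⟩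
        · rw [Function.update_of_ne hki]
          exact h2 k (fun h => (Finset.mem_insert.1 h).elim hki hk)
    have h4 := coord_bound D q hq i p y r K _ hr hK (h1 i (Finset.mem_insert_self i S)) h3 0
    rw [pow_zero, one_mul, Function.iterate_zero, id] at h4
    rw [Finset.card_insert_of_notMem hi, pow_succ]
    calc |eval y q| ≤ Cu D * K ^ D * ((Cu D * K ^ D) ^ S.card * M) := h4
      _ = _ := by ring

/-- the constant -/
noncomputable def Cm (N D : ℕ) : ℝ := Cu D ^ (N + 1)

theorem Cm_one (N D : ℕ) : 1 ≤ Cm N D := one_le_pow₀ (Cu_one D)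

/-- values on the enlarged cell -/
theorem cell_val (D : ℕ) (q : MvPolynomial (Fin N) ℝ) (hq : q.totalDegree ≤ D)
    (p : Fin N → ℝ) (r K M : ℝ) (hr : 0 < r) (hK : 1 ≤ K)
    (hM : ∀ j : Fin N → Fin (D + 1), |eval (nodp D p r j) q| ≤ M)
    (y : Fin N → ℝ) (hy : ∀ i, |y i - p i| ≤ K * r) :
    |eval y q| ≤ Cm N D * K ^ (N * D) * M := by
  have hM0 : 0 ≤ M := (abs_nonneg _).trans (hM fun _ => 0)
  have h1 := cell_aux D q hq p r K M hr hK hM Finset.univ y (fun i _ => hy i)
    (fun i hi => absurd (Finset.mem_univ i) hi)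
  rw [Finset.card_univ, Fintype.card_fin, mul_pow, ← pow_mul, mul_comm D N] at h1
  refine h1.trans ?_
  refine mul_le_mul_of_nonneg_right (mul_le_mul_of_nonneg_right ?_ (by positivity)) hM0
  unfold Cm
  exact pow_le_pow_right₀ (Cu_one D) (Nat.le_succ N)

/-- derivatives on the enlarged cell -/
theorem cell_der (D : ℕ) (q : MvPolynomial (Fin N) ℝ) (hq : q.totalDegree ≤ D)
    (p : Fin N → ℝ) (r K M : ℝ) (hr : 0 < r) (hK : 1 ≤ K)
    (hM : ∀ j : Fin N → Fin (D + 1), |eval (nodp D p r j) q| ≤ M)
    (y : Fin N → ℝ) (hy : ∀ i, |y i - p i| ≤ K * r) (i : Fin N) :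
    r * |eval y (pderiv i q)| ≤ Cm N D * K ^ (N * D + D) * M := by
  have hM0 : 0 ≤ M := (abs_nonneg _).trans (hM fun _ => 0)
  have h0 : ∀ j ≤ D, |eval (Function.update y i (p i + r * nod D j)) q| ≤
      Cu D ^ N * K ^ (N * D) * M := by
    intro j hj
    have h1 := cell_aux D q hq p r K M hr hK hM Finset.univ (Function.update y i (p i + r * nod D j))
      (fun k _ => by
        by_cases hk : k = i
        · subst hk
          rw [Function.update_self]
          have : p k + r * nod D j - p k = r * nod D j := by ring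
          rw [this, abs_mul, abs_of_pos hr, abs_of_nonneg (nod_nonneg D j), mul_comm]
          exact mul_le_mul_of_nonneg_right ((nod_le D j hj).trans hK) hr.le
        · rw [Function.update_of_ne hk]
          exact hy k)
      (fun k hk => absurd (Finset.mem_univ k) hk)
    rw [Finset.card_univ, Fintype.card_fin, mul_pow, ← pow_mul, mul_comm D N] at h1
    exact h1
  have h2 := coord_bound D q hq i p y r K _ hr hK (hy i) h0 1
  rw [pow_one, Function.iterate_one] at h2
  refine h2.trans (le_of_eq ?_)
  unfold Cm
  rw [pow_succ, pow_add]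
  ring

/-- growth along the lines through a point of the cell: exponent `D` -/
theorem cell_growth (D : ℕ) (q : MvPolynomial (Fin N) ℝ) (hq : q.totalDegree ≤ D)
    (p : Fin N → ℝ) (r K M : ℝ) (hr : 0 < r) (hK : 1 ≤ K)
    (hM : ∀ j : Fin N → Fin (D + 1), |eval (nodp D p r j) q| ≤ M)
    (y : Fin N → ℝ) (hy : ∀ i, |y i - p i| ≤ K * r) :
    |eval y q| ≤ Cu D * K ^ D * (Cm N D * M) := by
  have h1 := uni_affine D (lin p (fun k => (y k - p k) / (K * r)) q) ((natDegree_lin _ _ q).trans hq)
    0 0 r K (K * r) (Cm N D * M) hr hK (by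
      rw [sub_zero, abs_of_pos (by positivity)]) (by
      intro j hj
      rw [eval_lin]
      have h2 := cell_val D q hq p r 1 M hr le_rfl hM
        (fun k => p k + (0 + r * nod D j) * ((y k - p k) / (K * r))) (by
          intro k
          have h3 : p k + (0 + r * nod D j) * ((y k - p k) / (K * r)) - p k =
            (r * nod D j) * ((y k - p k) / (K * r)) := by ring
          rw [h3, abs_mul, abs_div, abs_mul, abs_of_pos hr, abs_of_nonneg (nod_nonneg D j),
            abs_of_pos (by positivity : 0 < K * r), one_mul]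
          have h4 : |y k - p k| / (K * r) ≤ 1 := by
            rw [div_le_one (by positivity)]
            exact hy k
          calc r * nod D j * (|y k - p k| / (K * r)) ≤ r * 1 * 1 :=
                mul_le_mul (mul_le_mul_of_nonneg_left (nod_le D j hj) hr.le) h4 (by positivity)
                  (by positivity)
            _ = r := by ring)
      rw [one_pow, mul_one] at h2
      exact h2)
  rw [pow_zero, one_mul, Function.iterate_zero, id, eval_lin] at h1
  have h5 : (fun k => p k + K * r * ((y k - p k) / (K * r))) = y := by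
    funext k
    field_simp
    ring
  rw [h5] at h1
  exact h1

end Pool.Agent.Helper3.LF
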