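import Pool.Agent.Helper3.LF.Sub
import Pool.Agent.Helper31.EC.Fin

/-! Remez inequality for laws of large entropy, finite level. (LEAF (0.2)) -/

set_option autoImplicit false

namespace Pool.Agent.Helper3.LF

open Finset Pool.Agent.Helper69.RK

open Classical in
/-- events on which a nearly uniform variable takes few values have small mass -/
theorem few_values {Ω α γ : Type} [Fintype Ω] (μ : Ω → ℝ) (τ : Ω → α) (F : Ω → γ) (E : Ω → Prop)
    (h q ε : ℝ) (h0 : ∀ ω, 0 ≤ μ ω) (hh : 0 < h) (hq : 0 < q)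
    (h1 : ∀ ω, μ ω ≠ 0 →
      ((((univ : Finset Ω).filter (fun ω' => μ ω' ≠ 0 ∧ F ω' = F ω)).image τ).card : ℝ) ≤ h)
    (h2 : ∀ ω, μ ω ≠ 0 → E ω →
      ((((univ : Finset Ω).filter (fun ω' => μ ω' ≠ 0 ∧ E ω' ∧ F ω' = F ω)).image τ).card : ℝ) ≤ q * h)
    (h3 : mass μ * Real.logb 2 h - ε ≤ CH μ τ F) :
    mass (res μ E) * Real.logb 2 (1 / q) ≤ ε + mass μ := by
  have hE4 := st_E4 st_E1 st_E3
  have a1 := (hE4.2.1 Ω α γ μ τ F E h0).2
  obtain ⟨a2, a3, a4⟩ := hE4.2.2 Ω μ E h0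
  obtain ⟨-, a3', a4'⟩ := hE4.2.2 Ω μ (fun ω => ¬ E ω) h0
  have r1 : ∀ (D : Ω → Prop) (ω : Ω), res μ D ω ≠ 0 ↔ μ ω ≠ 0 ∧ D ω := by
    intro D ω
    unfold res
    by_cases hD : D ω
    · rw [if_pos hD]
      exact ⟨fun h => ⟨h, hD⟩, fun h => h.1⟩
    · rw [if_neg hD]
      exact ⟨fun h => absurd rfl h, fun h => absurd h.2 hD⟩
  have b1 : CH (res μ E) τ F ≤ mass (res μ E) * Real.logb 2 (q * h) := by
    have c1 := st_E3.1 Ω α γ (res μ E) τ F (fun _ => q * h) a4 (by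
      intro ω hω
      obtain ⟨d1, d2⟩ := (r1 E ω).1 hω
      have d3 := h2 ω d1 d2
      have d4 : (univ : Finset Ω).filter (fun ω' => res μ E ω' ≠ 0 ∧ F ω' = F ω) =
          (univ : Finset Ω).filter (fun ω' => μ ω' ≠ 0 ∧ E ω' ∧ F ω' = F ω) := by
        apply Finset.filter_congr
        intro ω' _
        rw [r1, and_assoc]
      rw [d4]
      exact d3)
    refine c1.trans (le_of_eq ?_)
    rw [← Finset.sum_mul]
    rfl
  have b2 : CH (res μ (fun ω => ¬ E ω)) τ F ≤ mass (res μ (fun ω => ¬ E ω)) * Real.logb 2 h := by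
    have c1 := st_E3.1 Ω α γ (res μ (fun ω => ¬ E ω)) τ F (fun _ => h) a4' (by
      intro ω hω
      obtain ⟨d1, d2⟩ := (r1 _ ω).1 hω
      refine le_trans ?_ (h1 ω d1)
      have d4 : (univ : Finset Ω).filter (fun ω' => res μ (fun ω => ¬ E ω) ω' ≠ 0 ∧ F ω' = F ω) ⊆
          (univ : Finset Ω).filter (fun ω' => μ ω' ≠ 0 ∧ F ω' = F ω) := by
        intro ω' hω'
        rw [Finset.mem_filter] at hω' ⊢
        exact ⟨hω'.1, ((r1 _ ω').1 hω'.2.1).1, hω'.2.2⟩
      exact_mod_cast Finset.card_le_card (Finset.image_subset_image d4))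
    refine c1.trans (le_of_eq ?_)
    rw [← Finset.sum_mul]
    rfl
  rw [Real.logb_mul hq.ne' hh.ne'] at b1
  rw [one_div, Real.logb_inv]
  have e1 : mass μ * Real.logb 2 h = mass (res μ E) * Real.logb 2 h +
      mass (res μ (fun ω => ¬ E ω)) * Real.logb 2 h := by
    rw [a2, add_mul]
  linarith

/-- ENTROPIC REMEZ INEQUALITY, finite level: time `t` of nearly full entropy at scale `δ` in a window of length `L`,
polynomials `f` which are functions of the condition `B`: the event that `|f t|` is smaller than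
`η ^ D / (D + 1)` times the value `M` which is attained in the window has small mass -/
theorem remez_mass {Ω γ : Type} [Fintype Ω] (μ : Ω → ℝ) (B : Ω → γ) (t : Ω → ℝ) (D : ℕ)
    (f : Ω → Polynomial ℝ) (s M : Ω → ℝ) (L δ η ε : ℝ) (h0 : ∀ ω, 0 ≤ μ ω) (hδ : 0 < δ) (hL : δ ≤ L)
    (hη : 0 < η)
    (hB : ∀ ω ω', μ ω ≠ 0 → μ ω' ≠ 0 → B ω' = B ω → f ω' = f ω ∧ s ω' = s ω ∧ M ω' = M ω)
    (hf : ∀ ω, μ ω ≠ 0 → (f ω).natDegree ≤ D)
    (ht : ∀ ω, μ ω ≠ 0 → |s ω - t ω| ≤ L)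
    (hM : ∀ ω, μ ω ≠ 0 → M ω ≤ |(f ω).eval (s ω)|)
    (hent : mass μ * Real.logb 2 (L / δ) - ε ≤ CH μ (fun ω => ⌊t ω / δ⌋) B) :
    mass (res μ (fun ω => (D + 1) * |(f ω).eval (t ω)| < η ^ D * M ω)) *
      Real.logb 2 (1 / ((D + 1) * (η + 3 * δ / L))) ≤ ε + 3 * mass μ := by
  classical
  have hLp : 0 < L := lt_of_lt_of_le hδ hL
  have hR : 1 ≤ L / δ := by rw [one_le_div hδ]; exact hL
  have key := few_values μ (fun ω => ⌊t ω / δ⌋) B
    (fun ω => (D + 1) * |(f ω).eval (t ω)| < η ^ D * M ω) (4 * (L / δ))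
    ((D + 1) * (η + 3 * δ / L)) (ε + 2 * mass μ) h0 (by positivity) (by positivity)
    (by
      intro ω hω
      have c3 : ((⌊(s ω + L) / δ⌋ + 1 - ⌊(s ω - L) / δ⌋).toNat : ℝ) ≤ 2 * (L / δ) + 2 := by
        have e1 := Int.floor_le ((s ω + L) / δ)
        have e2 := Int.lt_floor_add_one ((s ω - L) / δ)
        have e3 : ⌊(s ω - L) / δ⌋ ≤ ⌊(s ω + L) / δ⌋ :=
          Int.floor_le_floor (div_le_div_of_nonneg_right (by linarith) hδ.le)
        have e4 : (((⌊(s ω + L) / δ⌋ + 1 - ⌊(s ω - L) / δ⌋).toNat : ℤ) : ℝ) =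
            (⌊(s ω + L) / δ⌋ : ℝ) + 1 - ⌊(s ω - L) / δ⌋ := by
          rw [Int.toNat_of_nonneg (by omega)]
          push_cast
          ring
        have e5 : ((⌊(s ω + L) / δ⌋ + 1 - ⌊(s ω - L) / δ⌋).toNat : ℝ) =
            (((⌊(s ω + L) / δ⌋ + 1 - ⌊(s ω - L) / δ⌋).toNat : ℤ) : ℝ) := by norm_cast
        rw [e5, e4]
        have e6 : (s ω + L) / δ - (s ω - L) / δ = 2 * (L / δ) := by ring
        linarith
      refine le_trans (Nat.cast_le.2 (Finset.card_le_card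
        (t := Finset.Icc ⌊(s ω - L) / δ⌋ ⌊(s ω + L) / δ⌋) ?_)) ?_
      · intro j hj
        obtain ⟨ω', hω', rfl⟩ := e3_mem_image hj
        obtain ⟨-, d1, d2⟩ := Finset.mem_filter.1 hω'
        have d3 := ht ω' d1
        rw [(hB ω ω' hω d1 d2).2.1, abs_le] at d3
        rw [Finset.mem_Icc]
        exact ⟨Int.floor_le_floor (div_le_div_of_nonneg_right (by linarith) hδ.le),
          Int.floor_le_floor (div_le_div_of_nonneg_right (by linarith) hδ.le)⟩
      · rw [Int.card_Icc]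
        linarith)
    (by
      intro ω hω hE
      refine (sub_count D (f ω) (hf ω hω) (s ω) L δ (M ω) η hLp hδ hη (hM ω hω) _ ?_).trans ?_
      · intro j hj
        obtain ⟨ω', hω', rfl⟩ := e3_mem_image hj
        obtain ⟨-, d1, d2, d3⟩ := Finset.mem_filter.1 hω'
        obtain ⟨e1, e2, e3⟩ := hB ω ω' hω d1 d3
        refine ⟨t ω', rfl, ?_, ?_⟩
        · rw [← e2]
          exact ht ω' d1
        · rw [← e1, ← e3]
          exact d2
      · have e1 : (D + 1) * (η + 3 * δ / L) * (4 * (L / δ)) = 4 * ((D + 1) * (η * L / δ + 3)) := by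
          field_simp
        rw [e1]
        have e2 : 0 ≤ η * L / δ + 3 := by positivity
        have e3 : (0 : ℝ) ≤ D := Nat.cast_nonneg D
        nlinarith)
    (by
      rw [Real.logb_mul (by norm_num) (by positivity)]
      have c1 : Real.logb 2 4 = 2 := by
        rw [show (4 : ℝ) = 2 ^ (2 : ℝ) by norm_num, Real.logb_rpow (by norm_num) (by norm_num)]
      rw [c1]
      linarith)
  linarith

end Pool.Agent.Helper3.LF
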