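import Pool.Agent.Helper3.LF.Eta
import Mathlib.Analysis.Calculus.Monotone

/-! Speed of the thickness: at almost every window `c` with `eta(c) < 1` the derivative exists, is finite and is at
least `1`. (LEAF sect. 3, M3) -/

set_option autoImplicit false

namespace Pool.Agent.Helper3.LF

open Filter Topology MeasureTheory Pool.Agent.Helper31.EC

noncomputable section

variable {S : Sp} {m : ℕ} {s : Sys S m} {D : ℕ}

/-- at a point of differentiability the speed is at least one -/
theorem eta_deriv_ge (hD : 1 ≤ D) {c d : ℝ} (h0 : 0 ≤ c) (h1 : c < 1) (h2 : eta s D c < 1)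
    (hd : HasDerivAt (eta s D) d c) : 1 ≤ d := by
  have h3 : Tendsto (fun y => slope (eta s D) c y) (𝓝[>] c) (𝓝 d) :=
    (hasDerivAt_iff_tendsto_slope.1 hd).mono_left (nhdsWithin_mono c (fun y hy => ne_of_gt hy))
  refine ge_of_tendsto h3 ?_
  have h4 : ∀ᶠ y in 𝓝[>] c, y < min 1 (c + (1 - eta s D c)) := by
    have : c < min 1 (c + (1 - eta s D c)) := lt_min h1 (by linarith)
    exact mem_nhdsWithin_of_mem_nhds (Iio_mem_nhds this)
  filter_upwards [h4, self_mem_nhdsWithin] with y hy hcy
  have hcy' : c < y := hcy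
  have e1 : y < 1 := lt_of_lt_of_le hy (min_le_left _ _)
  have e2 : y < c + (1 - eta s D c) := lt_of_lt_of_le hy (min_le_right _ _)
  have e3 := eta_speed (s := s) hD h0 hcy'.le e1.le
  rw [min_eq_right (by linarith)] at e3
  rw [slope_def_field, le_div_iff₀ (by linarith)]
  linarith

/-- M3: speed at almost every window -/
theorem eta_ae_speed (hD : 1 ≤ D) : ∀ᵐ c : ℝ, 0 ≤ c → c < 1 → eta s D c < 1 →
    ∃ d, 1 ≤ d ∧ HasDerivAt (eta s D) d c := by
  have hm : Monotone (eta s D) := fun _ _ h => eta_mono hD h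
  filter_upwards [hm.ae_differentiableAt] with c hc h0 h1 h2
  exact ⟨deriv (eta s D) c, eta_deriv_ge hD h0 h1 h2 hc.hasDerivAt, hc.hasDerivAt⟩

end

end Pool.Agent.Helper3.LF
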