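import Pool.Agent.Helper3.LF.Mono

/-! Forms: the size `ph`, `ga` of a polynomial and of its gradient on a cell, and the corresponding quantities
`phi`, `gam` of a positive definite matrix. (LEAF (0.1)) -/

set_option autoImplicit false

namespace Pool.Agent.Helper3.LF

open MvPolynomial Matrix Pool.Agent.Helper95.LF

variable {N D : ℕ}

/-! ### one polynomial -/

/-- size of `q` on the cell with corner `p` and side `r` -/
noncomputable def ph (D : ℕ) (q : MvPolynomial (Fin N) ℝ) (r : ℝ) (p : Fin N → ℝ) : ℝ :=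
  ∑ j : Fin N → Fin (D + 1), (eval (nodp D p r j) q) ^ 2

/-- size of the gradient of `q` on the cell -/
noncomputable def ga (D : ℕ) (q : MvPolynomial (Fin N) ℝ) (r : ℝ) (p : Fin N → ℝ) : ℝ :=
  ∑ i, ph D (pderiv i q) r p

theorem ph_nonneg (q : MvPolynomial (Fin N) ℝ) (r : ℝ) (p : Fin N → ℝ) : 0 ≤ ph D q r p :=
  Finset.sum_nonneg fun _ _ => sq_nonneg _

theorem ga_nonneg (q : MvPolynomial (Fin N) ℝ) (r : ℝ) (p : Fin N → ℝ) : 0 ≤ ga D q r p :=
  Finset.sum_nonneg fun _ _ => ph_nonneg _ _ _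

theorem node_le (q : MvPolynomial (Fin N) ℝ) (r : ℝ) (p : Fin N → ℝ) (j : Fin N → Fin (D + 1)) :
    |eval (nodp D p r j) q| ≤ Real.sqrt (ph D q r p) := by
  rw [← Real.sqrt_sq_eq_abs]
  apply Real.sqrt_le_sqrt
  exact Finset.single_le_sum (f := fun j => (eval (nodp D p r j) q) ^ 2) (fun _ _ => sq_nonneg _)
    (Finset.mem_univ j)

theorem sq_le_of_abs_le {x c y : ℝ} (hy : 0 ≤ y) (h : |x| ≤ c * Real.sqrt y) :
    x ^ 2 ≤ c ^ 2 * y := by
  rw [← sq_abs]
  calc |x| ^ 2 ≤ (c * Real.sqrt y) ^ 2 := pow_le_pow_left₀ (abs_nonneg _) h 2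
    _ = c ^ 2 * y := by rw [mul_pow, Real.sq_sqrt hy]

/-- value at a point of the enlarged cell -/
theorem val_le (q : MvPolynomial (Fin N) ℝ) (hq : q.totalDegree ≤ D) (r K : ℝ) (hr : 0 < r) (hK : 1 ≤ K)
    (p y : Fin N → ℝ) (hy : ∀ i, |y i - p i| ≤ K * r) :
    (eval y q) ^ 2 ≤ (Cm N D * K ^ (N * D)) ^ 2 * ph D q r p := by
  have := Cm_one N D
  apply sq_le_of_abs_le (ph_nonneg _ _ _)
  exact cell_val D q hq p r K _ hr hK (node_le q r p) y hy

/-- gradient at a point of the enlarged cell -/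
theorem der_le (q : MvPolynomial (Fin N) ℝ) (hq : q.totalDegree ≤ D) (r K : ℝ) (hr : 0 < r) (hK : 1 ≤ K)
    (p y : Fin N → ℝ) (hy : ∀ i, |y i - p i| ≤ K * r) (i : Fin N) :
    r ^ 2 * (eval y (pderiv i q)) ^ 2 ≤ (Cm N D * K ^ (N * D + D)) ^ 2 * ph D q r p := by
  have := Cm_one N D
  rw [← mul_pow]
  apply sq_le_of_abs_le (ph_nonneg _ _ _)
  rw [abs_mul, abs_of_pos hr]
  exact cell_der D q hq p r K _ hr hK (node_le q r p) y hy i

/-- growth with the exponent `D` -/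
theorem gro_le (q : MvPolynomial (Fin N) ℝ) (hq : q.totalDegree ≤ D) (r K : ℝ) (hr : 0 < r) (hK : 1 ≤ K)
    (p y : Fin N → ℝ) (hy : ∀ i, |y i - p i| ≤ K * r) :
    (eval y q) ^ 2 ≤ (Cu D * Cm N D * K ^ D) ^ 2 * ph D q r p := by
  have := Cm_one N D
  have := Cu_one D
  apply sq_le_of_abs_le (ph_nonneg _ _ _)
  refine (cell_growth D q hq p r K _ hr hK (node_le q r p) y hy).trans (le_of_eq ?_)
  ring

/-- number of nodes -/
noncomputable def nn (N D : ℕ) : ℝ := ((D : ℝ) + 1) ^ N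

theorem nn_one (N D : ℕ) : 1 ≤ nn N D := one_le_pow₀ (by have : (0 : ℝ) ≤ D := Nat.cast_nonneg D; linarith)

theorem card_nodes (N D : ℕ) : ((Finset.univ : Finset (Fin N → Fin (D + 1))).card : ℝ) = nn N D := by
  rw [Finset.card_univ, Fintype.card_fun, Fintype.card_fin, Fintype.card_fin]
  unfold nn
  push_cast
  rfl

/-- if all nodes of the cell at `p'` of side `r'` lie in the `K`-fold enlargement of the cell at `p` of side `r` -/
theorem ph_comp (q : MvPolynomial (Fin N) ℝ) (hq : q.totalDegree ≤ D) (r r' K : ℝ) (hr : 0 < r)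
    (hr' : 0 ≤ r') (hK : 1 ≤ K) (p p' : Fin N → ℝ) (hp : ∀ i, |p' i - p i| + r' ≤ K * r) :
    ph D q r' p' ≤ nn N D * (Cu D * Cm N D * K ^ D) ^ 2 * ph D q r p := by
  have h1 : ∀ j ∈ (Finset.univ : Finset (Fin N → Fin (D + 1))), (eval (nodp D p' r' j) q) ^ 2 ≤
      (Cu D * Cm N D * K ^ D) ^ 2 * ph D q r p := by
    intro j _
    apply gro_le q hq r K hr hK
    intro i
    refine le_trans ?_ (hp i)
    have e1 : nodp D p' r' j i - p i = (p' i - p i) + r' * nod D (j i) := by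
      unfold nodp
      ring
    rw [e1]
    refine (abs_add_le _ _).trans (add_le_add le_rfl ?_)
    rw [abs_mul, abs_of_nonneg hr', abs_of_nonneg (nod_nonneg D _)]
    calc r' * nod D (j i) ≤ r' * 1 :=
          mul_le_mul_of_nonneg_left (nod_le D _ (Nat.le_of_lt_succ (j i).2)) hr'
      _ = r' := mul_one _
  refine (Finset.sum_le_card_nsmul _ _ _ h1).trans (le_of_eq ?_)
  rw [nsmul_eq_mul, card_nodes]
  ring

theorem pderiv_tdeg (q : MvPolynomial (Fin N) ℝ) (hq : q.totalDegree ≤ D) (i : Fin N) :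
    (pderiv i q).totalDegree ≤ D :=
  (tdeg_pderiv i q D (hq.trans (Nat.le_succ D)))

theorem ga_comp (q : MvPolynomial (Fin N) ℝ) (hq : q.totalDegree ≤ D) (r r' K : ℝ) (hr : 0 < r)
    (hr' : 0 ≤ r') (hK : 1 ≤ K) (p p' : Fin N → ℝ) (hp : ∀ i, |p' i - p i| + r' ≤ K * r) :
    ga D q r' p' ≤ nn N D * (Cu D * Cm N D * K ^ D) ^ 2 * ga D q r p := by
  unfold ga
  rw [Finset.mul_sum]
  exact Finset.sum_le_sum fun i _ => ph_comp _ (pderiv_tdeg q hq i) r r' K hr hr' hK p p' hp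

/-- Markov inequality on a cell -/
theorem ga_le (q : MvPolynomial (Fin N) ℝ) (hq : q.totalDegree ≤ D) (r : ℝ) (hr : 0 < r)
    (p : Fin N → ℝ) : r ^ 2 * ga D q r p ≤ N * nn N D * Cm N D ^ 2 * ph D q r p := by
  have h1 : ∀ i ∈ (Finset.univ : Finset (Fin N)), r ^ 2 * ph D (pderiv i q) r p ≤
      nn N D * (Cm N D ^ 2 * ph D q r p) := by
    intro i _
    have e0 : r ^ 2 * ph D (pderiv i q) r p = ∑ j : Fin N → Fin (D + 1),
        r ^ 2 * (eval (nodp D p r j) (pderiv i q)) ^ 2 := by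
      unfold ph
      rw [Finset.mul_sum]
    rw [e0]
    refine (Finset.sum_le_card_nsmul _ _ (Cm N D ^ 2 * ph D q r p) fun j _ => ?_).trans (le_of_eq ?_)
    · have h2 := der_le q hq r 1 hr le_rfl p (nodp D p r j) (fun k => by
        have e1 : nodp D p r j k - p k = r * nod D (j k) := by
          unfold nodp
          ring
        rw [e1, abs_mul, abs_of_pos hr, abs_of_nonneg (nod_nonneg D _), one_mul]
        calc r * nod D (j k) ≤ r * 1 :=
              mul_le_mul_of_nonneg_left (nod_le D _ (Nat.le_of_lt_succ (j k).2)) hr.le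
          _ = r := mul_one _) i
      rw [one_pow, mul_one] at h2
      exact h2
    · rw [nsmul_eq_mul, card_nodes]
  unfold ga
  rw [Finset.mul_sum]
  refine (Finset.sum_le_card_nsmul _ _ _ h1).trans (le_of_eq ?_)
  rw [nsmul_eq_mul, Finset.card_univ, Fintype.card_fin]
  ring

/-! ### matrices -/

/-- size of the form `A` on the cell with corner `p` and side `r` -/
noncomputable def phi (r : ℝ) (A : Matrix (Mon N D) (Mon N D) ℝ) (p : Fin N → ℝ) : ℝ :=
  ∑ j : Fin N → Fin (D + 1), vv (nodp D p r j) ⬝ᵥ (A *ᵥ vv (nodp D p r j))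

/-- size of the gradient of the form `A` on the cell -/
noncomputable def gam (r : ℝ) (A : Matrix (Mon N D) (Mon N D) ℝ) (p : Fin N → ℝ) : ℝ :=
  ∑ i, ∑ j : Fin N → Fin (D + 1), dd i (nodp D p r j) ⬝ᵥ (A *ᵥ dd i (nodp D p r j))

theorem phi_add (r : ℝ) (A B : Matrix (Mon N D) (Mon N D) ℝ) (p : Fin N → ℝ) :
    phi r (A + B) p = phi r A p + phi r B p := by
  unfold phi
  rw [← Finset.sum_add_distrib]
  exact Finset.sum_congr rfl fun j _ => dv_add _ _ _

theorem gam_add (r : ℝ) (A B : Matrix (Mon N D) (Mon N D) ℝ) (p : Fin N → ℝ) :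
    gam r (A + B) p = gam r A p + gam r B p := by
  unfold gam
  rw [← Finset.sum_add_distrib]
  refine Finset.sum_congr rfl fun i _ => ?_
  rw [← Finset.sum_add_distrib]
  exact Finset.sum_congr rfl fun j _ => dv_add _ _ _

theorem phi_smul (r c : ℝ) (A : Matrix (Mon N D) (Mon N D) ℝ) (p : Fin N → ℝ) :
    phi r (c • A) p = c * phi r A p := by
  unfold phi
  rw [Finset.mul_sum]
  exact Finset.sum_congr rfl fun j _ => dv_smul _ _ _

theorem gam_smul (r c : ℝ) (A : Matrix (Mon N D) (Mon N D) ℝ) (p : Fin N → ℝ) :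
    gam r (c • A) p = c * gam r A p := by
  unfold gam
  rw [Finset.mul_sum]
  refine Finset.sum_congr rfl fun i _ => ?_
  rw [Finset.mul_sum]
  exact Finset.sum_congr rfl fun j _ => dv_smul _ _ _

theorem phi_mono (r : ℝ) {A B : Matrix (Mon N D) (Mon N D) ℝ}
    (h : ∀ x : Mon N D → ℝ, x ⬝ᵥ (A *ᵥ x) ≤ x ⬝ᵥ (B *ᵥ x)) (p : Fin N → ℝ) : phi r A p ≤ phi r B p :=
  Finset.sum_le_sum fun _ _ => h _

theorem gam_mono (r : ℝ) {A B : Matrix (Mon N D) (Mon N D) ℝ}
    (h : ∀ x : Mon N D → ℝ, x ⬝ᵥ (A *ᵥ x) ≤ x ⬝ᵥ (B *ᵥ x)) (p : Fin N → ℝ) : gam r A p ≤ gam r B p :=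
  Finset.sum_le_sum fun _ _ => Finset.sum_le_sum fun _ _ => h _

theorem phi_nonneg (r : ℝ) {A : Matrix (Mon N D) (Mon N D) ℝ}
    (h : ∀ x : Mon N D → ℝ, 0 ≤ x ⬝ᵥ (A *ᵥ x)) (p : Fin N → ℝ) : 0 ≤ phi r A p :=
  Finset.sum_nonneg fun _ _ => h _

theorem gam_nonneg (r : ℝ) {A : Matrix (Mon N D) (Mon N D) ℝ}
    (h : ∀ x : Mon N D → ℝ, 0 ≤ x ⬝ᵥ (A *ᵥ x)) (p : Fin N → ℝ) : 0 ≤ gam r A p :=
  Finset.sum_nonneg fun _ _ => Finset.sum_nonneg fun _ _ => h _

/-- the rows of a factor -/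
theorem qf_rows {κ : Type} [Fintype κ] (C : Matrix κ κ ℝ) (x : κ → ℝ) :
    x ⬝ᵥ ((C.transpose * C) *ᵥ x) = ∑ k, (C k ⬝ᵥ x) ^ 2 := by
  rw [← Matrix.mulVec_mulVec, Matrix.dotProduct_mulVec, Matrix.vecMul_transpose]
  unfold dotProduct
  refine Finset.sum_congr rfl fun k _ => ?_
  rw [pow_two]
  rfl

theorem phi_rows (r : ℝ) (C : Matrix (Mon N D) (Mon N D) ℝ) (p : Fin N → ℝ) :
    phi r (C.transpose * C) p = ∑ k, ph D (pol (C k)) r p := by
  unfold phi ph
  rw [Finset.sum_comm (s := (Finset.univ : Finset (Mon N D)))]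
  refine Finset.sum_congr rfl fun j _ => ?_
  rw [qf_rows]
  exact Finset.sum_congr rfl fun k _ => by rw [eval_pol]

theorem gam_rows (r : ℝ) (C : Matrix (Mon N D) (Mon N D) ℝ) (p : Fin N → ℝ) :
    gam r (C.transpose * C) p = ∑ k, ga D (pol (C k)) r p := by
  unfold gam ga ph
  rw [Finset.sum_comm (s := (Finset.univ : Finset (Mon N D)))]
  refine Finset.sum_congr rfl fun i _ => ?_
  rw [Finset.sum_comm (s := (Finset.univ : Finset (Mon N D)))]
  refine Finset.sum_congr rfl fun j _ => ?_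
  rw [qf_rows]
  exact Finset.sum_congr rfl fun k _ => by rw [eval_pderiv_pol]

/-- rows of a positive definite form -/
theorem exists_rows (A : Matrix (Mon N D) (Mon N D) ℝ) (hA : PdM A) :
    ∃ C : Matrix (Mon N D) (Mon N D) ℝ, A = C.transpose * C ∧
      (∀ r p, phi r A p = ∑ k, ph D (pol (C k)) r p) ∧
      ∀ r p, gam r A p = ∑ k, ga D (pol (C k)) r p := by
  obtain ⟨C, hC, -⟩ := exists_factor A hA
  refine ⟨C, hC, fun r p => ?_, fun r p => ?_⟩
  · rw [hC, phi_rows]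
  · rw [hC, gam_rows]

/-- comparison of cells -/
theorem phi_comp (A : Matrix (Mon N D) (Mon N D) ℝ) (hA : PdM A) (r r' K : ℝ) (hr : 0 < r)
    (hr' : 0 ≤ r') (hK : 1 ≤ K) (p p' : Fin N → ℝ) (hp : ∀ i, |p' i - p i| + r' ≤ K * r) :
    phi r' A p' ≤ nn N D * (Cu D * Cm N D * K ^ D) ^ 2 * phi r A p := by
  obtain ⟨C, -, h1, -⟩ := exists_rows A hA
  rw [h1, h1, Finset.mul_sum]
  exact Finset.sum_le_sum fun k _ => ph_comp _ (pol_deg _) r r' K hr hr' hK p p' hp

theorem gam_comp (A : Matrix (Mon N D) (Mon N D) ℝ) (hA : PdM A) (r r' K : ℝ) (hr : 0 < r)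
    (hr' : 0 ≤ r') (hK : 1 ≤ K) (p p' : Fin N → ℝ) (hp : ∀ i, |p' i - p i| + r' ≤ K * r) :
    gam r' A p' ≤ nn N D * (Cu D * Cm N D * K ^ D) ^ 2 * gam r A p := by
  obtain ⟨C, -, -, h1⟩ := exists_rows A hA
  rw [h1, h1, Finset.mul_sum]
  exact Finset.sum_le_sum fun k _ => ga_comp _ (pol_deg _) r r' K hr hr' hK p p' hp

/-- Markov inequality -/
theorem gam_le (A : Matrix (Mon N D) (Mon N D) ℝ) (hA : PdM A) (r : ℝ) (hr : 0 < r)
    (p : Fin N → ℝ) : r ^ 2 * gam r A p ≤ N * nn N D * Cm N D ^ 2 * phi r A p := by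
  obtain ⟨C, -, h1, h2⟩ := exists_rows A hA
  rw [h1, h2, Finset.mul_sum, Finset.mul_sum]
  exact Finset.sum_le_sum fun k _ => ga_le _ (pol_deg _) r hr p

/-- one row, one node, one direction -/
theorem exists_row (hN : 0 < N) (C : Matrix (Mon N D) (Mon N D) ℝ) (r : ℝ) (p : Fin N → ℝ) :
    ∃ (k : Mon N D) (j : Fin N → Fin (D + 1)) (i : Fin N),
      gam r (C.transpose * C) p ≤ (Fintype.card (Mon N D) * (N * nn N D)) *
        (eval (nodp D p r j) (pderiv i (pol (C k)))) ^ 2 ∧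
      (eval (nodp D p r j) (pol (C k))) ^ 2 ≤ phi r (C.transpose * C) p := by
  classical
  have : Nonempty (Fin N) := ⟨⟨0, hN⟩⟩
  obtain ⟨⟨k, i, j⟩, -, hmax⟩ := Finset.exists_max_image
    (Finset.univ : Finset (Mon N D × Fin N × (Fin N → Fin (D + 1))))
    (fun w => (eval (nodp D p r w.2.2) (pderiv w.2.1 (pol (C w.1)))) ^ 2) Finset.univ_nonempty
  refine ⟨k, j, i, ?_, ?_⟩
  · rw [gam_rows]
    unfold ga ph
    have h1 : ∀ k' ∈ (Finset.univ : Finset (Mon N D)), ∑ i' : Fin N, ∑ j' : Fin N → Fin (D + 1),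
        (eval (nodp D p r j') (pderiv i' (pol (C k')))) ^ 2 ≤
        N * (nn N D * (eval (nodp D p r j) (pderiv i (pol (C k)))) ^ 2) := by
      intro k' _
      have h2 : ∀ i' ∈ (Finset.univ : Finset (Fin N)), ∑ j' : Fin N → Fin (D + 1),
          (eval (nodp D p r j') (pderiv i' (pol (C k')))) ^ 2 ≤
          nn N D * (eval (nodp D p r j) (pderiv i (pol (C k)))) ^ 2 := by
        intro i' _
        refine (Finset.sum_le_card_nsmul _ _ _ fun j' _ =>
          hmax ⟨k', i', j'⟩ (Finset.mem_univ _)).trans (le_of_eq ?_)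
        rw [nsmul_eq_mul, card_nodes]
      refine (Finset.sum_le_card_nsmul _ _ _ h2).trans (le_of_eq ?_)
      rw [nsmul_eq_mul, Finset.card_univ, Fintype.card_fin]
    refine (Finset.sum_le_card_nsmul _ _ _ h1).trans (le_of_eq ?_)
    rw [nsmul_eq_mul, Finset.card_univ]
    ring
  · rw [phi_rows]
    have h1 : (eval (nodp D p r j) (pol (C k))) ^ 2 ≤ ph D (pol (C k)) r p :=
      Finset.single_le_sum (f := fun j => (eval (nodp D p r j) (pol (C k))) ^ 2)
        (fun _ _ => sq_nonneg _) (Finset.mem_univ j)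
    exact h1.trans (Finset.single_le_sum (f := fun k => ph D (pol (C k)) r p)
      (fun _ _ => ph_nonneg _ _ _) (Finset.mem_univ k))

/-- along a line `phi` is a polynomial of degree at most `2 D` -/
theorem phi_line (r : ℝ) (A : Matrix (Mon N D) (Mon N D) ℝ) (hA : PdM A) (a x : Fin N → ℝ) :
    ∃ f : Polynomial ℝ, f.natDegree ≤ 2 * D ∧ ∀ s : ℝ, f.eval s = phi r A (fun k => a k + s * x k) := by
  classical
  obtain ⟨C, -, h1, -⟩ := exists_rows A hA
  refine ⟨∑ k, ∑ j : Fin N → Fin (D + 1), (lin (fun i => a i + r * nod D (j i)) x (pol (C k))) ^ 2, ?_, ?_⟩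
  · refine Polynomial.natDegree_sum_le_of_forall_le _ _ fun k _ =>
      Polynomial.natDegree_sum_le_of_forall_le _ _ fun j _ => ?_
    refine Polynomial.natDegree_pow_le.trans ?_
    exact Nat.mul_le_mul_left 2 ((natDegree_lin _ _ _).trans (pol_deg _))
  · intro s
    rw [h1, Polynomial.eval_finsetSum]
    refine Finset.sum_congr rfl fun k _ => ?_
    rw [Polynomial.eval_finsetSum]
    unfold ph
    refine Finset.sum_congr rfl fun j _ => ?_
    rw [Polynomial.eval_pow, eval_lin]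
    have e1 : (fun k => a k + r * nod D ↑(j k) + s * x k) = nodp D (fun k => a k + s * x k) r j := by
      funext k
      unfold nodp
      ring
    rw [e1]

theorem gam_line (r : ℝ) (A : Matrix (Mon N D) (Mon N D) ℝ) (hA : PdM A) (a x : Fin N → ℝ) :
    ∃ f : Polynomial ℝ, f.natDegree ≤ 2 * D ∧ ∀ s : ℝ, f.eval s = gam r A (fun k => a k + s * x k) := by
  classical
  obtain ⟨C, -, -, h1⟩ := exists_rows A hA
  refine ⟨∑ k, ∑ i, ∑ j : Fin N → Fin (D + 1),
    (lin (fun i => a i + r * nod D (j i)) x (pderiv i (pol (C k)))) ^ 2, ?_, ?_⟩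
  · refine Polynomial.natDegree_sum_le_of_forall_le _ _ fun k _ =>
      Polynomial.natDegree_sum_le_of_forall_le _ _ fun i _ =>
      Polynomial.natDegree_sum_le_of_forall_le _ _ fun j _ => ?_
    refine Polynomial.natDegree_pow_le.trans ?_
    exact Nat.mul_le_mul_left 2 ((natDegree_lin _ _ _).trans (pderiv_tdeg _ (pol_deg _) i))
  · intro s
    rw [h1, Polynomial.eval_finsetSum]
    refine Finset.sum_congr rfl fun k _ => ?_
    rw [Polynomial.eval_finsetSum]
    unfold ga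
    refine Finset.sum_congr rfl fun i _ => ?_
    rw [Polynomial.eval_finsetSum]
    unfold ph
    refine Finset.sum_congr rfl fun j _ => ?_
    rw [Polynomial.eval_pow, eval_lin]
    have e1 : (fun k => a k + r * nod D ↑(j k) + s * x k) = nodp D (fun k => a k + s * x k) r j := by
      funext k
      unfold nodp
      ring
    rw [e1]

end Pool.Agent.Helper3.LF
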