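import Pool.Agent.Helper3.LF.Cell
import Pool.Agent.Helper95.LF.Det

/-! Monomial vectors, polynomials with given coefficient vectors. (LEAF (0.1)) -/

set_option autoImplicit false

namespace Pool.Agent.Helper3.LF

open MvPolynomial Matrix

/-- monomials of total degree at most `D` in `N` variables -/
def Mon (N D : ℕ) : Type := {a : Fin N → Fin (D + 1) // ∑ i, (a i : ℕ) ≤ D}

instance (N D : ℕ) : Fintype (Mon N D) := by unfold Mon; infer_instance

instance (N D : ℕ) : DecidableEq (Mon N D) := by unfold Mon; infer_instance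

instance (N D : ℕ) : Nonempty (Mon N D) := ⟨⟨fun _ => 0, by simp⟩⟩

variable {N D : ℕ}

/-- the exponent -/
noncomputable def Mon.ex (a : Mon N D) : Fin N →₀ ℕ := Finsupp.equivFunOnFinite.symm fun i => (a.1 i : ℕ)

theorem Mon.ex_apply (a : Mon N D) (i : Fin N) : a.ex i = (a.1 i : ℕ) := rfl

theorem Mon.ex_sum (a : Mon N D) : (a.ex.sum fun _ e => e) ≤ D := by
  rw [Finsupp.sum_fintype _ _ (fun _ => rfl)]
  exact a.2

/-- the monomial -/
noncomputable def Mon.mon (a : Mon N D) : MvPolynomial (Fin N) ℝ := monomial a.ex 1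

/-- the polynomial with coefficient vector `c` -/
noncomputable def pol (c : Mon N D → ℝ) : MvPolynomial (Fin N) ℝ := ∑ a, C (c a) * a.mon

/-- the vector of the monomials at `p` -/
noncomputable def vv (p : Fin N → ℝ) : Mon N D → ℝ := fun a => eval p a.mon

/-- the vector of the derivatives of the monomials at `p` -/
noncomputable def dd (i : Fin N) (p : Fin N → ℝ) : Mon N D → ℝ := fun a => eval p (pderiv i a.mon)

theorem vv_apply (p : Fin N → ℝ) (a : Mon N D) : vv p a = ∏ i, p i ^ (a.1 i : ℕ) := by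
  unfold vv Mon.mon
  rw [eval_monomial, one_mul, Finsupp.prod_fintype _ _ (fun _ => pow_zero _)]
  rfl

theorem eval_pol (p : Fin N → ℝ) (c : Mon N D → ℝ) : eval p (pol c) = c ⬝ᵥ vv p := by
  unfold pol vv dotProduct
  rw [map_sum]
  refine Finset.sum_congr rfl fun a _ => ?_
  rw [map_mul, eval_C]

theorem eval_pderiv_pol (i : Fin N) (p : Fin N → ℝ) (c : Mon N D → ℝ) :
    eval p (pderiv i (pol c)) = c ⬝ᵥ dd i p := by
  unfold pol dd dotProduct
  rw [map_sum, map_sum]
  refine Finset.sum_congr rfl fun a _ => ?_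
  rw [pderiv_C_mul, map_mul, eval_C]

theorem mon_deg (a : Mon N D) : a.mon.totalDegree ≤ D :=
  (totalDegree_monomial_le _ _).trans a.ex_sum

theorem pol_deg (c : Mon N D → ℝ) : (pol c).totalDegree ≤ D := by
  unfold pol
  refine totalDegree_finsetSum_le fun a _ => ?_
  refine (totalDegree_mul _ _).trans ?_
  rw [totalDegree_C, zero_add]
  exact mon_deg a

/-- every polynomial of total degree at most `D` -/
theorem exists_pol (q : MvPolynomial (Fin N) ℝ) (hq : q.totalDegree ≤ D) :
    ∃ c : Mon N D → ℝ, q = pol c := by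
  classical
  refine ⟨fun a => coeff a.ex q, ?_⟩
  have h1 : pol (fun a : Mon N D => coeff a.ex q) =
      ∑ a : Mon N D, monomial a.ex (coeff a.ex q) := by
    unfold pol Mon.mon
    refine Finset.sum_congr rfl fun a _ => ?_
    rw [C_mul_monomial, mul_one]
  rw [h1]
  have hinj : Function.Injective (Mon.ex : Mon N D → Fin N →₀ ℕ) := by
    intro a b h
    apply Subtype.ext
    funext i
    apply Fin.ext
    exact DFunLike.congr_fun h i
  have h2 : ∑ a : Mon N D, monomial a.ex (coeff a.ex q) =
      ∑ s ∈ Finset.univ.image (Mon.ex : Mon N D → Fin N →₀ ℕ), monomial s (coeff s q) :=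
    (Finset.sum_image (f := fun s => monomial s (coeff s q)) (fun a _ b _ h => hinj h)).symm
  rw [h2]
  conv_lhs => rw [q.as_sum]
  refine Finset.sum_subset ?_ ?_
  · intro s hs
    have h3 : (s.sum fun _ e => e) ≤ D := (le_totalDegree hs).trans hq
    rw [Finsupp.sum_fintype _ _ (fun _ => rfl)] at h3
    have h4 : ∀ i, s i < D + 1 := fun i =>
      Nat.lt_succ_of_le ((Finset.single_le_sum (f := fun i => s i) (fun _ _ => Nat.zero_le _)
        (Finset.mem_univ i)).trans h3)
    refine Finset.mem_image.2 ⟨⟨fun i => ⟨s i, h4 i⟩, h3⟩, Finset.mem_univ _, ?_⟩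
    ext i
    rfl
  · intro s _ hs
    rw [notMem_support_iff.1 hs, monomial_zero]

/-- restriction to a line of the scalar product with a coefficient vector -/
theorem lin_pol (a x : Fin N → ℝ) (c : Mon N D → ℝ) :
    ∃ f : Polynomial ℝ, f.natDegree ≤ D ∧ ∀ s : ℝ, f.eval s = c ⬝ᵥ vv (fun k => a k + s * x k) :=
  ⟨lin a x (pol c), (natDegree_lin _ _ _).trans (pol_deg c), fun s => by rw [eval_lin, eval_pol]⟩

end Pool.Agent.Helper3.LF
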