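import Pool.Agent.Helper3.LF.Rep
import Pool.Agent.Helper31.EC.Vec

/-! Remez inequality in the exact entropy calculus. (LEAF (0.2)) -/

set_option autoImplicit false

namespace Pool.Agent.Helper3.LF

open Finset Filter Topology Pool.Agent.Helper69.RK Pool.Agent.Helper31.EC

noncomputable section

variable {S : Sp}

theorem Sub_pow_two {τ : ℕ → ℝ} (hτ : Tendsto τ UF (𝓝 0)) (h0 : ∀ᶠ k in UF, 0 ≤ τ k) :
    S.Sub (fun k => (2 : ℝ) ^ (τ k * (S.F k).n)) := by
  refine ⟨Eventually.of_forall fun k => by positivity, ?_⟩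
  have h1 : Tendsto (fun k => Real.logb 2 3 / (S.F k).n + τ k) UF (𝓝 0) := by
    have := (S.div_n_tendsto (Real.logb 2 3)).add hτ
    rwa [add_zero] at this
  refine tendsto_of_tendsto_of_tendsto_of_le_of_le' tendsto_const_nhds h1 ?_ ?_
  · refine Eventually.of_forall fun k => ?_
    apply div_nonneg (Real.logb_nonneg (by norm_num) _) (S.F k).pos.le
    have : (0 : ℝ) < 2 ^ (τ k * (S.F k).n) := by positivity
    linarith
  · filter_upwards [h0] with k hk
    have hn := (S.F k).pos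
    rw [div_add' _ _ _ hn.ne']
    apply div_le_div_of_nonneg_right _ hn.le
    have e1 : (1 : ℝ) ≤ 2 ^ (τ k * (S.F k).n) := Real.one_le_rpow (by norm_num) (by positivity)
    calc Real.logb 2 ((2 : ℝ) ^ (τ k * (S.F k).n) + 2) ≤ Real.logb 2 (3 * 2 ^ (τ k * (S.F k).n)) :=
          Real.logb_le_logb_of_le (by norm_num) (by positivity) (by linarith)
      _ = _ := by
          rw [Real.logb_mul (by norm_num) (by positivity), Real.logb_rpow (by norm_num) (by norm_num)]

/-- ENTROPIC REMEZ INEQUALITY in the exact calculus: `t` has full entropy between the levels `c` and `l` given `B`,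
the polynomials `g` are functions of `B` (and the base) up to subexponential factors -/
theorem remez_EC (t : S.VV 1) (c l : ℝ) (hcl : c < l) (B : ∀ k, Setoid (S.F k).Ω) (D : ℕ)
    (g : ∀ k, (S.F k).Ω → Polynomial ℝ) (K κ : ℕ → ℝ) (hK : S.Sub K) (hκ : S.Sub κ) (e : ℕ → ℝ) (he : Tendsto e UF (𝓝 0))
    (hent : ∀ᶠ k in UF, l - c - e k ≤ S.rt (fun k => Setoid.ker (t.cellv l k)) B k)
    (hdeg : ∀ᶠ k in UF, ∀ ω, (S.F k).μ ω ≠ 0 → (g k ω).natDegree ≤ D)
    (hwin : ∀ᶠ k in UF, ∀ ω ω', (S.F k).μ ω ≠ 0 → (S.F k).μ ω' ≠ 0 → B k ω' ω → (S.F k).Z ω' ω →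
      |t.v k ω' 0 - t.v k ω 0| ≤ K k * S.dl c k)
    (hcomp : ∀ᶠ k in UF, ∀ ω ω', (S.F k).μ ω ≠ 0 → (S.F k).μ ω' ≠ 0 → B k ω' ω → (S.F k).Z ω' ω →
      ∀ s, |s - t.v k ω 0| ≤ 2 * ((K k + 1) * S.dl c k) →
        |(g k ω').eval s| ≤ κ k * |(g k ω).eval s|) :
    ∃ K' : ℕ → ℝ, S.Sub K' ∧ Sp.Typ (fun k ω => ∀ s, |s - t.v k ω 0| ≤ (K k + 1) * S.dl c k →
      |(g k ω).eval s| ≤ K' k * |(g k ω).eval (t.v k ω 0)|) := by
  classical
  -- parameters
  set a : ℕ → ℝ := fun k => |e k| + (Real.logb 2 (3 * (K k + 1)) + 3) / (S.F k).n with ha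
  have hK1 : S.Sub (fun k => K k + 1) := hK.add (S.Sub_const zero_le_one)
  have hκ1 : S.Sub (fun k => κ k + 1) := hκ.add (S.Sub_const zero_le_one)
  have hK3 : S.Sub (fun k => 3 * (K k + 1)) := (S.Sub_const (show (0 : ℝ) ≤ 3 by norm_num)).mul hK1
  have ha0 : Tendsto a UF (𝓝 0) := by
    have h1 : Tendsto (fun k => |e k| + (Real.logb 2 (3 * (K k + 1) + 2) / (S.F k).n + 3 / (S.F k).n)) UF
        (𝓝 0) := by
      have h2 := (he.abs).add (hK3.2.add (S.div_n_tendsto 3))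
      simpa using h2
    refine tendsto_of_tendsto_of_tendsto_of_le_of_le' tendsto_const_nhds h1 ?_ ?_
    · filter_upwards [hK.1] with k hk
      have hn := (S.F k).pos
      have h3 : 0 ≤ Real.logb 2 (3 * (K k + 1)) := Real.logb_nonneg (by norm_num) (by linarith)
      simp only [ha]
      positivity
    · filter_upwards [hK.1] with k hk
      have hn := (S.F k).pos
      simp only [ha]
      rw [← add_div]
      refine add_le_add le_rfl (div_le_div_of_nonneg_right ?_ hn.le)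
      refine add_le_add ?_ le_rfl
      exact Real.logb_le_logb_of_le (by norm_num) (by linarith) (by linarith)
  set σ : ℕ → ℝ := fun k => Real.sqrt (a k) with hσ
  have hσ0 : Tendsto σ UF (𝓝 0) := by
    have := (Real.continuous_sqrt.tendsto 0).comp ha0
    rwa [Real.sqrt_zero] at this
  have hσn : Tendsto (fun k => σ k * (S.F k).n) UF atTop := by
    have h1 : Tendsto (fun k => Real.sqrt (S.F k).n) UF atTop := Real.tendsto_sqrt_atTop.comp S.lim
    refine tendsto_atTop_mono' _ ?_ h1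
    filter_upwards [hK.1] with k hk
    have hn := (S.F k).pos
    have h3 : 0 ≤ Real.logb 2 (3 * (K k + 1)) := Real.logb_nonneg (by norm_num) (by linarith)
    have h4 : 1 / (S.F k).n ≤ a k := by
      have h5 : 1 / (S.F k).n ≤ (Real.logb 2 (3 * (K k + 1)) + 3) / (S.F k).n :=
        div_le_div_of_nonneg_right (by linarith) hn.le
      simp only [ha]
      have := abs_nonneg (e k)
      linarith
    have h6 : Real.sqrt (1 / (S.F k).n) * (S.F k).n = Real.sqrt (S.F k).n := by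
      rw [Real.sqrt_div zero_le_one, Real.sqrt_one, one_div, inv_mul_eq_div, Real.div_sqrt]
    calc Real.sqrt (S.F k).n = Real.sqrt (1 / (S.F k).n) * (S.F k).n := h6.symm
      _ ≤ σ k * (S.F k).n := mul_le_mul_of_nonneg_right (Real.sqrt_le_sqrt h4) hn.le
  set K' : ℕ → ℝ := fun k => (κ k + 1) ^ 2 * (D + 1) * (2 : ℝ) ^ (D * σ k * (S.F k).n) with hK'
  have hK's : S.Sub K' := by
    have h1 : S.Sub (fun k => (κ k + 1) ^ 2 * (D + 1)) := by
      have h2 := (hκ1.mul hκ1).mul (S.Sub_const (show (0 : ℝ) ≤ (D : ℝ) + 1 by positivity))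
      refine h2.mono ?_ ?_
      · filter_upwards [hκ.1] with k hk
        positivity
      · exact Eventually.of_forall fun k => by rw [pow_two]
    refine h1.mul (Sub_pow_two (τ := fun k => D * σ k) ?_ ?_)
    · have := hσ0.const_mul (D : ℝ)
      rwa [mul_zero] at this
    · exact Eventually.of_forall fun k => mul_nonneg (Nat.cast_nonneg D) (Real.sqrt_nonneg _)
  refine ⟨K', hK's, ?_⟩
  unfold Sp.Typ
  have h2σ : Tendsto (fun k => 2 * σ k) UF (𝓝 0) := by
    have := hσ0.const_mul 2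
    rwa [mul_zero] at this
  refine tendsto_of_tendsto_of_tendsto_of_le_of_le' tendsto_const_nhds h2σ
    (Eventually.of_forall fun k => Sp.mass_res_nonneg k _) ?_
  set C : ℝ := Real.logb 2 (2 * (D + 1)) with hC
  have ev1 : ∀ᶠ k in UF, 2 * |C| + 1 ≤ σ k * (S.F k).n := hσn.eventually (eventually_ge_atTop _)
  have ev2 : ∀ᶠ k in UF, σ k < l - c := hσ0.eventually (gt_mem_nhds (sub_pos.2 hcl))
  filter_upwards [hent, hdeg, hwin, hcomp, hK.1, hκ.1, ev1, ev2] with k h1 h2 h3 h4 hK0 hκ0 h5 h6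
  have hn := (S.F k).pos
  have hσk : 0 < σ k := by
    by_contra hcon
    have : σ k * (S.F k).n ≤ 0 := mul_nonpos_of_nonpos_of_nonneg (not_lt.1 hcon) hn.le
    have := abs_nonneg C
    linarith
  have hδ := S.dl_pos l k
  have hc := S.dl_pos c k
  set W : ℝ := (K k + 1) * S.dl c k with hW
  have hWp : 0 < W := by positivity
  have hdlc : S.dl l k = 2 ^ (-(l - c) * (S.F k).n) * S.dl c k := by
    unfold Sp.dl
    rw [← Real.rpow_add (by norm_num : (0 : ℝ) < 2)]
    congr 1; ring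
  have hp1 : (2 : ℝ) ^ (-(l - c) * (S.F k).n) ≤ 1 := by
    apply Real.rpow_le_one_of_one_le_of_nonpos (by norm_num)
    have : 0 < (l - c) * (S.F k).n := mul_pos (sub_pos.2 hcl) hn
    linarith
  have hδW : S.dl l k ≤ W := by
    rw [hdlc, hW]
    refine mul_le_mul_of_nonneg_right (hp1.trans ?_) hc.le
    linarith
  set η : ℝ := (2 : ℝ) ^ (-(σ k * (S.F k).n)) with hη
  have hη0 : 0 < η := by positivity
  have hδη : S.dl l k / W ≤ η := by
    rw [div_le_iff₀ hWp, hdlc, hW, hη]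
    have e1 : (2 : ℝ) ^ (-(l - c) * (S.F k).n) ≤ (2 : ℝ) ^ (-(σ k * (S.F k).n)) := by
      apply Real.rpow_le_rpow_of_exponent_le (by norm_num)
      have := mul_le_mul_of_nonneg_right h6.le hn.le
      linarith
    have e2 : (2 : ℝ) ^ (-(σ k * (S.F k).n)) * S.dl c k ≤
        (2 : ℝ) ^ (-(σ k * (S.F k).n)) * ((K k + 1) * S.dl c k) := by
      refine mul_le_mul_of_nonneg_left ?_ hη0.le
      nlinarith
    exact (mul_le_mul_of_nonneg_right e1 hc.le).trans e2
  have hD0 : (0 : ℝ) ≤ D := Nat.cast_nonneg D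
  have hqη : (D + 1) * (η + S.dl l k / W) ≤ 2 * (D + 1) * η := by nlinarith
  have hlogη : Real.logb 2 (2 * (D + 1) * η) = C - σ k * (S.F k).n := by
    rw [Real.logb_mul (by positivity) hη0.ne', hη, Real.logb_rpow (by norm_num) (by norm_num), hC]
    ring
  have hq1 : (D + 1) * (η + S.dl l k / W) ≤ 1 := by
    refine hqη.trans ?_
    rw [← Real.logb_nonpos_iff (b := 2) (by norm_num) (by positivity), hlogη]
    have := le_abs_self C
    have := abs_nonneg C
    linarith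
  -- entropy
  have hCH : CH (S.F k).μ (fun ω => ⌊t.v k ω 0 / S.dl l k⌋) (Quotient.mk (B k ⊓ (S.F k).Z)) =
      (S.F k).e (Setoid.ker (t.cellv l k)) (B k ⊓ (S.F k).Z) := by
    symm
    apply (S.F k).e_congr
    · intro ω ω' _ _
      show t.cellv l k ω' = t.cellv l k ω ↔ _
      constructor
      · intro h
        exact congrFun h 0
      · intro h
        funext i
        rw [Subsingleton.elim i 0]
        exact h
    · intro ω ω' _ _
      exact Quotient.eq.symm
  have hrt : (l - c - e k) * (S.F k).n ≤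
      CH (S.F k).μ (fun ω => ⌊t.v k ω 0 / S.dl l k⌋) (Quotient.mk (B k ⊓ (S.F k).Z)) := by
    rw [hCH]
    have : S.rt (fun k => Setoid.ker (t.cellv l k)) B k =
        (S.F k).e (Setoid.ker (t.cellv l k)) (B k ⊓ (S.F k).Z) / (S.F k).n := rfl
    rw [this, le_div_iff₀ hn] at h1
    exact h1
  have hent' : mass (S.F k).μ * Real.logb 2 (3 * W / S.dl l k) -
      (Real.logb 2 (3 * (K k + 1)) + e k * (S.F k).n) ≤
      CH (S.F k).μ (fun ω => ⌊t.v k ω 0 / S.dl l k⌋) (Quotient.mk (B k ⊓ (S.F k).Z)) := by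
    rw [(S.F k).ms, one_mul]
    have e1 : 3 * W / S.dl l k = 3 * (K k + 1) * 2 ^ ((l - c) * (S.F k).n) := by
      rw [div_eq_iff hδ.ne', hdlc, hW]
      have e2 : (2 : ℝ) ^ ((l - c) * (S.F k).n) * 2 ^ (-(l - c) * (S.F k).n) = 1 := by
        rw [← Real.rpow_add (by norm_num : (0 : ℝ) < 2)]
        have : (l - c) * (S.F k).n + -(l - c) * (S.F k).n = 0 := by ring
        rw [this, Real.rpow_zero]
      calc 3 * ((K k + 1) * S.dl c k) = 3 * (K k + 1) * S.dl c k *
            ((2 : ℝ) ^ ((l - c) * (S.F k).n) * 2 ^ (-(l - c) * (S.F k).n)) := by rw [e2]; ring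
        _ = _ := by ring
    rw [e1, Real.logb_mul (by positivity) (by positivity), Real.logb_rpow (by norm_num) (by norm_num)]
    linarith
  have key := remez_rep (S.F k).μ (Quotient.mk (B k ⊓ (S.F k).Z)) (fun ω => t.v k ω 0) D (g k) (κ k + 1) W
    (S.dl l k) η _ (S.F k).nn hδ hδW hη0 (by linarith) hq1 h2
    (by
      intro ω ω' a1 a2 a3
      have a4 := Quotient.exact a3
      refine (h3 ω ω' a1 a2 a4.1 a4.2).trans ?_
      rw [hW]
      nlinarith)
    (by
      intro ω ω' a1 a2 a3 s hs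
      have a4 := Quotient.exact a3
      refine (h4 ω ω' a1 a2 a4.1 a4.2 s hs).trans ?_
      have := abs_nonneg ((g k ω).eval s)
      nlinarith)
    hent'
  rw [(S.F k).ms, mul_one] at key
  -- the bound for the mass
  have hmono : mass (res (S.F k).μ (fun ω => ¬ ∀ s, |s - t.v k ω 0| ≤ W →
      |(g k ω).eval s| ≤ K' k * |(g k ω).eval (t.v k ω 0)|)) ≤
      mass (res (S.F k).μ (fun ω => ∃ s, |s - t.v k ω 0| ≤ W ∧
        (κ k + 1) ^ 2 * ((D + 1) * |(g k ω).eval (t.v k ω 0)|) < η ^ D * |(g k ω).eval s|)) := by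
    apply mass_res_mono _ _ _ (S.F k).nn
    intro ω hω hE
    push Not at hE
    obtain ⟨s, hs, hlt⟩ := hE
    refine ⟨s, hs, ?_⟩
    have e1 : η ^ D * K' k = (κ k + 1) ^ 2 * (D + 1) := by
      simp only [hK', hη]
      rw [← Real.rpow_natCast, ← Real.rpow_mul (by norm_num)]
      have e2 : (2 : ℝ) ^ (-(σ k * (S.F k).n) * D) * 2 ^ (D * σ k * (S.F k).n) = 1 := by
        rw [← Real.rpow_add (by norm_num : (0 : ℝ) < 2)]
        have : -(σ k * (S.F k).n) * D + D * σ k * (S.F k).n = 0 := by ring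
        rw [this, Real.rpow_zero]
      calc (2 : ℝ) ^ (-(σ k * (S.F k).n) * D) * ((κ k + 1) ^ 2 * (D + 1) * 2 ^ (D * σ k * (S.F k).n))
          = (κ k + 1) ^ 2 * (D + 1) *
            ((2 : ℝ) ^ (-(σ k * (S.F k).n) * D) * 2 ^ (D * σ k * (S.F k).n)) := by ring
        _ = _ := by rw [e2, mul_one]
    have e3 : η ^ D * (K' k * |(g k ω).eval (t.v k ω 0)|) < η ^ D * |(g k ω).eval s| :=
      mul_lt_mul_of_pos_left hlt (by positivity)
    calc (κ k + 1) ^ 2 * ((D + 1) * |(g k ω).eval (t.v k ω 0)|)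
        = η ^ D * K' k * |(g k ω).eval (t.v k ω 0)| := by rw [e1]; ring
      _ = η ^ D * (K' k * |(g k ω).eval (t.v k ω 0)|) := by ring
      _ < _ := e3
  refine hmono.trans ?_
  set m0 := mass (res (S.F k).μ (fun ω => ∃ s, |s - t.v k ω 0| ≤ W ∧
        (κ k + 1) ^ 2 * ((D + 1) * |(g k ω).eval (t.v k ω 0)|) < η ^ D * |(g k ω).eval s|)) with hm0
  have hm00 : 0 ≤ m0 := Sp.mass_res_nonneg k _
  have hlog : σ k * (S.F k).n / 2 ≤ Real.logb 2 (1 / ((D + 1) * (η + S.dl l k / W))) := by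
    have e1 : Real.logb 2 ((D + 1) * (η + S.dl l k / W)) ≤ C - σ k * (S.F k).n := by
      rw [← hlogη]
      exact Real.logb_le_logb_of_le (by norm_num) (by positivity) hqη
    rw [one_div, Real.logb_inv]
    have := le_abs_self C
    linarith
  have hak : a k * (S.F k).n = |e k| * (S.F k).n + (Real.logb 2 (3 * (K k + 1)) + 3) := by
    simp only [ha]
    rw [add_mul, div_mul_cancel₀ _ hn.ne']
  have hsq : σ k * σ k = a k := by
    rw [hσ]
    apply Real.mul_self_sqrt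
    have h3 : 0 ≤ Real.logb 2 (3 * (K k + 1)) := Real.logb_nonneg (by norm_num) (by linarith)
    simp only [ha]
    positivity
  have hfin : m0 * (σ k * (S.F k).n / 2) ≤ a k * (S.F k).n := by
    calc m0 * (σ k * (S.F k).n / 2) ≤ m0 * Real.logb 2 (1 / ((D + 1) * (η + S.dl l k / W))) :=
          mul_le_mul_of_nonneg_left hlog hm00
      _ ≤ Real.logb 2 (3 * (K k + 1)) + e k * (S.F k).n + 3 := key
      _ ≤ a k * (S.F k).n := by
          rw [hak]
          have := mul_le_mul_of_nonneg_right (le_abs_self (e k)) hn.le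
          linarith
  rw [← hsq] at hfin
  have hσn' : 0 < σ k * (S.F k).n / 2 := by positivity
  have e2 : σ k * σ k * (S.F k).n = (2 * σ k) * (σ k * (S.F k).n / 2) := by ring
  rw [e2] at hfin
  exact le_of_mul_le_mul_right hfin hσn'

/-- the same for larger windows: the loss is `2 ^ (D b n)` for windows of level `c - b` -/
theorem remez_EC_grow (t : S.VV 1) (c l : ℝ) (hcl : c < l) (B : ∀ k, Setoid (S.F k).Ω) (D : ℕ)
    (g : ∀ k, (S.F k).Ω → Polynomial ℝ) (K κ : ℕ → ℝ) (hK : S.Sub K) (hκ : S.Sub κ) (e : ℕ → ℝ) (he : Tendsto e UF (𝓝 0))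
    (hent : ∀ᶠ k in UF, l - c - e k ≤ S.rt (fun k => Setoid.ker (t.cellv l k)) B k)
    (hdeg : ∀ᶠ k in UF, ∀ ω, (S.F k).μ ω ≠ 0 → (g k ω).natDegree ≤ D)
    (hwin : ∀ᶠ k in UF, ∀ ω ω', (S.F k).μ ω ≠ 0 → (S.F k).μ ω' ≠ 0 → B k ω' ω → (S.F k).Z ω' ω →
      |t.v k ω' 0 - t.v k ω 0| ≤ K k * S.dl c k)
    (hcomp : ∀ᶠ k in UF, ∀ ω ω', (S.F k).μ ω ≠ 0 → (S.F k).μ ω' ≠ 0 → B k ω' ω → (S.F k).Z ω' ω →
      ∀ s, |s - t.v k ω 0| ≤ 2 * ((K k + 1) * S.dl c k) →
        |(g k ω').eval s| ≤ κ k * |(g k ω).eval s|)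
    (b : ℝ) (hb : 0 ≤ b) (L : ℕ → ℝ) (hL : S.Sub L) :
    ∃ K' : ℕ → ℝ, S.Sub K' ∧ Sp.Typ (fun k ω => ∀ s, |s - t.v k ω 0| ≤ L k * S.dl (c - b) k →
      |(g k ω).eval s| ≤ K' k * 2 ^ (D * b * (S.F k).n) * |(g k ω).eval (t.v k ω 0)|) := by
  obtain ⟨K', hK', hT⟩ := remez_EC t c l hcl B D g K κ hK hκ e he hent hdeg hwin hcomp
  have hL1 : S.Sub (fun k => L k + 1) := hL.add (S.Sub_const zero_le_one)
  have hLD : ∀ d : ℕ, S.Sub (fun k => (L k + 1) ^ d) := by
    intro d
    induction d with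
    | zero => simpa using S.Sub_const zero_le_one
    | succ d ih =>
      have h1 := ih.mul hL1
      simpa [pow_succ] using h1
  refine ⟨fun k => Cu D * (L k + 1) ^ D * K' k, ?_, ?_⟩
  · exact ((S.Sub_const (le_trans zero_le_one (Cu_one D))).mul (hLD D)).mul hK'
  · refine squeeze_zero' (Eventually.of_forall fun k => Sp.mass_res_nonneg k _) ?_ hT
    filter_upwards [hdeg, hK.1, hK'.1, hL.1] with k h2 hK0 hK'0 hL0
    apply mass_res_mono _ _ _ (S.F k).nn
    intro ω hω hE hcon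
    apply hE
    have hn := (S.F k).pos
    have hc := S.dl_pos c k
    intro s hs
    have hp : (1 : ℝ) ≤ 2 ^ (b * (S.F k).n) := Real.one_le_rpow (by norm_num) (by positivity)
    have hdl : S.dl (c - b) k = 2 ^ (b * (S.F k).n) * S.dl c k := by
      unfold Sp.dl
      rw [← Real.rpow_add (by norm_num : (0 : ℝ) < 2)]
      congr 1; ring
    have h5 : |s - t.v k ω 0| ≤ ((L k + 1) * 2 ^ (b * (S.F k).n)) * ((K k + 1) * S.dl c k) := by
      refine hs.trans ?_
      rw [hdl]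
      have e1 : L k * (2 ^ (b * (S.F k).n) * S.dl c k) ≤ (L k + 1) * (2 ^ (b * (S.F k).n) * S.dl c k) :=
        mul_le_mul_of_nonneg_right (by linarith) (by positivity)
      have e2 : (L k + 1) * (2 ^ (b * (S.F k).n) * S.dl c k) ≤
          (K k + 1) * ((L k + 1) * (2 ^ (b * (S.F k).n) * S.dl c k)) := by
        have e3 : 0 ≤ (L k + 1) * (2 ^ (b * (S.F k).n) * S.dl c k) := by positivity
        nlinarith
      calc _ ≤ _ := e1
        _ ≤ _ := e2
        _ = _ := by ring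
    have h6 := grow D (g k ω) (h2 ω hω) (t.v k ω 0) ((K k + 1) * S.dl c k)
      ((L k + 1) * 2 ^ (b * (S.F k).n)) _ (by positivity) (by nlinarith) hcon s h5
    refine h6.trans (le_of_eq ?_)
    have e4 : ((2 : ℝ) ^ (b * (S.F k).n)) ^ D = 2 ^ (D * b * (S.F k).n) := by
      rw [← Real.rpow_natCast, ← Real.rpow_mul (by norm_num)]
      congr 1; ring
    rw [mul_pow, e4]
    ring

end

end Pool.Agent.Helper3.LF
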