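import Pool.Agent.Helper3.LF.Ent

/-! Remez inequality for laws of large entropy, finite level, polynomials which are constant on the atoms of the
condition up to a factor. (LEAF (0.2)) -/

set_option autoImplicit false

namespace Pool.Agent.Helper3.LF

open Finset Pool.Agent.Helper69.RK

/-- growth of polynomials: from the window of length `L` to the window of length `K L` -/
theorem grow (D : ℕ) (f : Polynomial ℝ) (hf : f.natDegree ≤ D) (t L K M : ℝ) (hL : 0 < L) (hK : 1 ≤ K)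
    (h : ∀ s, |s - t| ≤ L → |f.eval s| ≤ M) (s : ℝ) (hs : |s - t| ≤ K * L) :
    |f.eval s| ≤ Cu D * K ^ D * M := by
  have h1 := uni_affine D f hf 0 t L K s M hL hK hs (by
    intro j hj
    apply h
    rw [add_sub_cancel_left, abs_mul, abs_of_pos hL, abs_of_nonneg (nod_nonneg D j)]
    calc L * nod D j ≤ L * 1 := mul_le_mul_of_nonneg_left (nod_le D j hj) hL.le
      _ = L := mul_one L)
  rw [pow_zero, one_mul, Function.iterate_zero, id] at h1
  exact h1

open Classical in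
theorem mass_res_mono {Ω : Type} [Fintype Ω] (μ : Ω → ℝ) (E E' : Ω → Prop) (h0 : ∀ ω, 0 ≤ μ ω)
    (h : ∀ ω, μ ω ≠ 0 → E ω → E' ω) : mass (res μ E) ≤ mass (res μ E') := by
  unfold mass res
  refine Finset.sum_le_sum fun ω _ => ?_
  by_cases h1 : E ω
  · by_cases h2 : μ ω = 0
    · rw [h2]
      simp
    · rw [if_pos h1, if_pos (h ω h2 h1)]
  · rw [if_neg h1]
    split_ifs
    · exact h0 ω
    · exact le_rfl

/-- ENTROPIC REMEZ INEQUALITY, finite level, with representatives: the polynomials `g` agree on the atoms of `B`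
up to the factor `κ` in absolute value -/
theorem remez_rep {Ω γ : Type} [Fintype Ω] (μ : Ω → ℝ) (B : Ω → γ) (t : Ω → ℝ) (D : ℕ)
    (g : Ω → Polynomial ℝ) (κ W δ η ε : ℝ) (h0 : ∀ ω, 0 ≤ μ ω) (hδ : 0 < δ) (hW : δ ≤ W)
    (hη : 0 < η) (hκ : 0 < κ) (hq : (D + 1) * (η + δ / W) ≤ 1)
    (hdeg : ∀ ω, μ ω ≠ 0 → (g ω).natDegree ≤ D)
    (hwin : ∀ ω ω', μ ω ≠ 0 → μ ω' ≠ 0 → B ω' = B ω → |t ω' - t ω| ≤ W)
    (hcomp : ∀ ω ω', μ ω ≠ 0 → μ ω' ≠ 0 → B ω' = B ω → ∀ s, |s - t ω| ≤ 2 * W →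
      |(g ω').eval s| ≤ κ * |(g ω).eval s|)
    (hent : mass μ * Real.logb 2 (3 * W / δ) - ε ≤ CH μ (fun ω => ⌊t ω / δ⌋) B) :
    mass (res μ (fun ω => ∃ s, |s - t ω| ≤ W ∧
      κ ^ 2 * ((D + 1) * |(g ω).eval (t ω)|) < η ^ D * |(g ω).eval s|)) *
      Real.logb 2 (1 / ((D + 1) * (η + δ / W))) ≤ ε + 3 * mass μ := by
  classical
  have hWp : 0 < W := lt_of_lt_of_le hδ hW
  -- representatives
  have hρ : ∀ b : γ, ∃ ω0 : Option Ω, ∀ ω, μ ω ≠ 0 → B ω = b → ∃ w, ω0 = some w ∧ μ w ≠ 0 ∧ B w = b := by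
    intro b
    by_cases h : ∃ w, μ w ≠ 0 ∧ B w = b
    · obtain ⟨w, h1, h2⟩ := h
      exact ⟨some w, fun _ _ _ => ⟨w, rfl, h1, h2⟩⟩
    · exact ⟨none, fun ω h1 h2 => absurd ⟨ω, h1, h2⟩ h⟩
  choose ρ hρ using hρ
  -- maximum over the window of the representative
  have hmax : ∀ w : Ω, ∃ s, |s - t w| ≤ 2 * W ∧ ∀ s', |s' - t w| ≤ 2 * W →
      |(g w).eval s'| ≤ |(g w).eval s| := by
    intro w
    have hne : (Set.Icc (t w - 2 * W) (t w + 2 * W)).Nonempty := ⟨t w, by constructor <;> linarith⟩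
    obtain ⟨s, hs, hs2⟩ := isCompact_Icc.exists_isMaxOn hne
      ((g w).continuous.abs.continuousOn (s := Set.Icc (t w - 2 * W) (t w + 2 * W)))
    refine ⟨s, ?_, fun s' hs' => ?_⟩
    · rw [abs_le]
      constructor <;> linarith [hs.1, hs.2]
    · rw [abs_le] at hs'
      exact hs2 ⟨by linarith [hs'.1], by linarith [hs'.2]⟩
  choose σ hσ1 hσ2 using hmax
  set f : Ω → Polynomial ℝ := fun ω => ((ρ (B ω)).map g).getD 0 with hf
  set s : Ω → ℝ := fun ω => ((ρ (B ω)).map σ).getD 0 with hs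
  have key := remez_mass μ B t D f s (fun ω => |(f ω).eval (s ω)|) (3 * W) δ η ε h0 hδ (by linarith) hη
    (by
      intro ω ω' _ _ h
      simp only [hf, hs, h]
      exact ⟨trivial, trivial, trivial⟩)
    (by
      intro ω hω
      obtain ⟨w, e1, e2, e3⟩ := hρ (B ω) ω hω rfl
      simp only [hf, e1, Option.map_some, Option.getD_some]
      exact hdeg w e2)
    (by
      intro ω hω
      obtain ⟨w, e1, e2, e3⟩ := hρ (B ω) ω hω rfl
      simp only [hs, e1, Option.map_some, Option.getD_some]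
      have a1 := hσ1 w
      have a2 := hwin ω w hω e2 e3
      rw [abs_le] at a1 a2 ⊢
      constructor <;> linarith [a1.1, a1.2, a2.1, a2.2])
    (fun ω _ => le_rfl)
    hent
  have e1 : 3 * δ / (3 * W) = δ / W := by
    field_simp
  rw [e1] at key
  have hlog : 0 ≤ Real.logb 2 (1 / ((D + 1) * (η + δ / W))) := by
    apply Real.logb_nonneg (by norm_num)
    rw [one_le_div (by positivity)]
    exact hq
  refine le_trans (mul_le_mul_of_nonneg_right (mass_res_mono μ _ _ h0 ?_) hlog) key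
  rintro ω hω ⟨s', hs', hlt⟩
  obtain ⟨w, e1, e2, e3⟩ := hρ (B ω) ω hω rfl
  simp only [hf, hs, e1, Option.map_some, Option.getD_some]
  have a1 := hwin ω w hω e2 e3
  have b1 : |s' - t w| ≤ 2 * W := by
    rw [abs_le] at a1 hs' ⊢
    constructor <;> linarith [a1.1, a1.2, hs'.1, hs'.2]
  have b2 : |(g ω).eval s'| ≤ κ * |(g w).eval s'| := hcomp w ω e2 hω e3.symm s' b1
  have b3 : |(g w).eval s'| ≤ |(g w).eval (σ w)| := hσ2 w s' b1
  have b4 : |(g w).eval (t ω)| ≤ κ * |(g ω).eval (t ω)| := by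
    apply hcomp ω w hω e2 e3
    rw [sub_self, abs_zero]
    linarith
  have hηD : 0 < η ^ D := by positivity
  have c1 : η ^ D * |(g ω).eval s'| ≤ κ * (η ^ D * |(g w).eval (σ w)|) := by
    calc η ^ D * |(g ω).eval s'| ≤ η ^ D * (κ * |(g w).eval (σ w)|) :=
          mul_le_mul_of_nonneg_left (b2.trans (mul_le_mul_of_nonneg_left b3 hκ.le)) hηD.le
      _ = _ := by ring
  have c2 : κ * ((D + 1) * |(g w).eval (t ω)|) ≤ κ ^ 2 * ((D + 1) * |(g ω).eval (t ω)|) := by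
    calc κ * ((D + 1) * |(g w).eval (t ω)|) ≤ κ * ((D + 1) * (κ * |(g ω).eval (t ω)|)) :=
          mul_le_mul_of_nonneg_left (mul_le_mul_of_nonneg_left b4 (by positivity)) hκ.le
      _ = _ := by ring
  have c3 : κ * ((D + 1) * |(g w).eval (t ω)|) < κ * (η ^ D * |(g w).eval (σ w)|) :=
    lt_of_le_of_lt c2 (lt_of_lt_of_le hlt c1)
  exact lt_of_mul_lt_mul_left c3 hκ.le

end Pool.Agent.Helper3.LF
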