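import Pool.Agent.Helper3.LF.Uni

/-! Sublevel sets of univariate polynomials: number of cells. (LEAF (0.2), Remez) -/

set_option autoImplicit false

namespace Pool.Agent.Helper3.LF

open Finset

/-- Lagrange interpolation at separated points -/
theorem lag_bound (D : ℕ) (f : Polynomial ℝ) (hf : f.natDegree ≤ D) (τ : ℕ → ℝ) (g L A s : ℝ)
    (hg : 0 < g) (hsep : ∀ i ≤ D, ∀ j ≤ D, i ≠ j → g ≤ |τ i - τ j|)
    (hs : ∀ i ≤ D, |s - τ i| ≤ L) (hA : ∀ i ≤ D, |f.eval (τ i)| ≤ A) :
    |f.eval s| ≤ (D + 1) * (L / g) ^ D * A := by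
  have hA0 : 0 ≤ A := (abs_nonneg _).trans (hA 0 (Nat.zero_le _))
  have hL0 : 0 ≤ L := (abs_nonneg _).trans (hs 0 (Nat.zero_le _))
  have hinj : Set.InjOn τ (range (D + 1)) := by
    intro i hi j hj hij
    by_contra hne
    have h1 := hsep i (by have := Finset.mem_range.1 hi; omega) j
      (by have := Finset.mem_range.1 hj; omega) hne
    rw [hij, sub_self, abs_zero] at h1
    linarith
  have hdeg : f.degree < (range (D + 1)).card := by
    rw [Finset.card_range]
    refine lt_of_le_of_lt Polynomial.degree_le_natDegree ?_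
    exact_mod_cast Nat.lt_succ_of_le hf
  have h2 := Lagrange.eq_interpolate (s := range (D + 1)) (v := τ) hinj hdeg
  rw [Lagrange.interpolate_apply] at h2
  have h3 : f.eval s = ∑ i ∈ range (D + 1), f.eval (τ i) *
      ∏ j ∈ (range (D + 1)).erase i, ((τ i - τ j)⁻¹ * (s - τ j)) := by
    conv_lhs => rw [h2]
    rw [Polynomial.eval_finsetSum]
    refine Finset.sum_congr rfl fun i _ => ?_
    rw [Polynomial.eval_mul, Polynomial.eval_C, Lagrange.basis, Polynomial.eval_prod]
    congr 1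
    refine Finset.prod_congr rfl fun j _ => ?_
    rw [Lagrange.basisDivisor]
    simp
  rw [h3]
  refine (Finset.abs_sum_le_sum_abs _ _).trans ?_
  have h4 : ∀ i ∈ range (D + 1), |f.eval (τ i) *
      ∏ j ∈ (range (D + 1)).erase i, ((τ i - τ j)⁻¹ * (s - τ j))| ≤ (L / g) ^ D * A := by
    intro i hi
    rw [abs_mul, Finset.abs_prod]
    have hi' : i ≤ D := by have := Finset.mem_range.1 hi; omega
    have h5 : ∏ j ∈ (range (D + 1)).erase i, |(τ i - τ j)⁻¹ * (s - τ j)| ≤
        ∏ _j ∈ (range (D + 1)).erase i, (L / g) := by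
      refine Finset.prod_le_prod (fun _ _ => abs_nonneg _) fun j hj => ?_
      obtain ⟨hji, hj'⟩ := Finset.mem_erase.1 hj
      have hjD : j ≤ D := by have := Finset.mem_range.1 hj'; omega
      rw [abs_mul, abs_inv, inv_mul_eq_div]
      have h6 := hsep i hi' j hjD (fun h => hji h.symm)
      exact div_le_div₀ hL0 (hs j hjD) hg h6
    rw [Finset.prod_const, Finset.card_erase_of_mem hi, Finset.card_range, Nat.add_sub_cancel] at h5
    rw [mul_comm]
    exact mul_le_mul h5 (hA i hi') (abs_nonneg _) (by positivity)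
  refine (Finset.sum_le_card_nsmul _ _ _ h4).trans (le_of_eq ?_)
  rw [Finset.card_range, nsmul_eq_mul]
  push_cast
  ring

theorem emb_gap {n : ℕ} (e : Fin n → ℤ) (he : StrictMono e) (i j : Fin n) (hij : i ≤ j) :
    (j : ℤ) - i ≤ e j - e i := by
  obtain ⟨i, hi⟩ := i
  obtain ⟨j, hj⟩ := j
  simp only [Fin.mk_le_mk] at hij
  induction j, hij using Nat.le_induction with
  | base => simp
  | succ k hk ih =>
    have h1 := ih (by omega)
    have h2 : e ⟨k, by omega⟩ < e ⟨k + 1, hj⟩ := he (by simp [Fin.lt_def])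
    push_cast at h1 ⊢
    omega

/-- a large set of integers has `D + 1` elements with mutual distances at least `k` -/
theorem exists_sep (J : Finset ℤ) (D k : ℕ) (hJ : D * k + 1 ≤ J.card) :
    ∃ c : ℕ → ℤ, (∀ i ≤ D, c i ∈ J) ∧ ∀ i ≤ D, ∀ j ≤ D, i < j → (k : ℤ) ≤ c j - c i := by
  have hlt : ∀ i, i ≤ D → i * k < J.card := fun i hi =>
    lt_of_lt_of_le (Nat.lt_succ_of_le (Nat.mul_le_mul_right k hi)) hJ
  refine ⟨fun i => if h : i ≤ D then J.orderEmbOfFin rfl ⟨i * k, hlt i h⟩ else 0, ?_, ?_⟩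
  · intro i hi
    simp only [hi, dif_pos]
    exact Finset.orderEmbOfFin_mem _ _ _
  · intro i hi j hj hij
    simp only [hi, hj, dif_pos]
    have h1 := emb_gap (J.orderEmbOfFin rfl) (J.orderEmbOfFin rfl).strictMono ⟨i * k, hlt i hi⟩
      ⟨j * k, hlt j hj⟩ (by simp only [Fin.mk_le_mk]; exact Nat.mul_le_mul_right k hij.le)
    simp only [] at h1
    have h2 : (k : ℤ) ≤ ((j * k : ℕ) : ℤ) - ((i * k : ℕ) : ℤ) := by
      push_cast
      have h3 : (1 : ℤ) ≤ (j : ℤ) - i := by
        have : (i : ℤ) < j := by exact_mod_cast hij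
        omega
      have h4 : (0 : ℤ) ≤ k := Int.natCast_nonneg k
      nlinarith
    exact h2.trans h1

/-- SUBLEVEL SETS: the number of cells of size `δ` that contain a point `t` with
`(D + 1) D ^ D |f t| < η ^ D M` is at most `D (η L / (D δ) + 3)`; here `M ≤ |f s|` and all points are at distance
at most `L` from `s` -/
theorem sub_count (D : ℕ) (f : Polynomial ℝ) (hf : f.natDegree ≤ D) (s L δ M η : ℝ)
    (hL : 0 < L) (hδ : 0 < δ) (hη : 0 < η) (hM : M ≤ |f.eval s|) (J : Finset ℤ)
    (hJ : ∀ j ∈ J, ∃ t, ⌊t / δ⌋ = j ∧ |s - t| ≤ L ∧ (D + 1) * |f.eval t| < η ^ D * M) :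
    (J.card : ℝ) ≤ D * (η * L / δ + 3) := by
  by_contra hcon
  rw [not_le] at hcon
  set k : ℕ := ⌊η * L / δ⌋₊ + 2 with hk
  have hx0 : 0 ≤ η * L / δ := by positivity
  have hk1 : (k : ℝ) ≤ η * L / δ + 3 := by
    rw [hk]
    push_cast
    have := Nat.floor_le hx0
    linarith
  have hcard : D * k + 1 ≤ J.card := by
    have h1 : ((D * k : ℕ) : ℝ) < J.card := by
      push_cast
      refine lt_of_le_of_lt ?_ hcon
      exact mul_le_mul_of_nonneg_left hk1 (Nat.cast_nonneg D)
    exact_mod_cast h1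
  obtain ⟨c, hc1, hc2⟩ := exists_sep J D k hcard
  have hex : ∀ i, ∃ t, i ≤ D → (⌊t / δ⌋ = c i ∧ |s - t| ≤ L ∧ (D + 1) * |f.eval t| < η ^ D * M) := by
    intro i
    by_cases hi : i ≤ D
    · obtain ⟨t, ht⟩ := hJ (c i) (hc1 i hi)
      exact ⟨t, fun _ => ht⟩
    · exact ⟨0, fun h => absurd h hi⟩
  choose τ hτ using hex
  have hgk : η * L / δ < (k : ℝ) - 1 := by
    rw [hk]
    push_cast
    have := Nat.lt_floor_add_one (η * L / δ)
    linarith
  have hsep' : ∀ i ≤ D, ∀ j ≤ D, i < j → η * L ≤ τ j - τ i := by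
    intro i hi j hj hij
    have h1 := hc2 i hi j hj hij
    obtain ⟨a1, -, -⟩ := hτ i hi
    obtain ⟨b1, -, -⟩ := hτ j hj
    have h2 : (k : ℝ) ≤ (c j : ℝ) - c i := by exact_mod_cast h1
    have h3 := Int.lt_floor_add_one (τ i / δ)
    have h4 := Int.floor_le (τ j / δ)
    rw [a1] at h3
    rw [b1] at h4
    have h5 : η * L / δ < τ j / δ - τ i / δ := by linarith
    rw [← sub_div, div_lt_div_iff_of_pos_right hδ] at h5
    exact h5.le
  have hmain := lag_bound D f hf τ (η * L) L (η ^ D * M / (D + 1)) s (by positivity)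
    (by
      intro i hi j hj hij
      rcases lt_or_gt_of_ne hij with h | h
      · have := hsep' i hi j hj h
        rw [abs_sub_comm]
        exact this.trans (le_abs_self _)
      · exact (hsep' j hj i hi h).trans (le_abs_self _))
    (fun i hi => (hτ i hi).2.1)
    (fun i hi => by
      rw [le_div_iff₀ (by positivity), mul_comm]
      exact (hτ i hi).2.2.le)
  have h6 := (hτ 0 (Nat.zero_le D)).2.2
  have hM0 : 0 < M := by
    have h7 : 0 < η ^ D * M := lt_of_le_of_lt (by positivity) h6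
    exact (mul_pos_iff_of_pos_left (by positivity)).1 h7
  have h8 : (D + 1) * (L / (η * L)) ^ D * (η ^ D * M / (D + 1)) = M := by
    have : L / (η * L) = 1 / η := by
      field_simp
    rw [this, one_div, inv_pow]
    field_simp
  rw [h8] at hmain
  -- strictness: interpolate with the strict bound
  have h9 : M = |f.eval s| := le_antisymm hM hmain
  obtain ⟨A, hA1, hA2⟩ : ∃ A, (∀ i ≤ D, |f.eval (τ i)| ≤ A) ∧ A < η ^ D * M / (D + 1) := by
    obtain ⟨i0, hi0, hmax⟩ := Finset.exists_max_image (range (D + 1)) (fun i => |f.eval (τ i)|)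
      ⟨0, Finset.mem_range.2 (Nat.succ_pos D)⟩
    refine ⟨|f.eval (τ i0)|, fun i hi => hmax i (Finset.mem_range.2 (by omega)), ?_⟩
    rw [lt_div_iff₀ (by positivity), mul_comm]
    exact (hτ i0 (by have := Finset.mem_range.1 hi0; omega)).2.2
  have hmain2 := lag_bound D f hf τ (η * L) L A s (by positivity)
    (by
      intro i hi j hj hij
      rcases lt_or_gt_of_ne hij with h | h
      · have := hsep' i hi j hj h
        rw [abs_sub_comm]
        exact this.trans (le_abs_self _)
      · exact (hsep' j hj i hi h).trans (le_abs_self _))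
    (fun i hi => (hτ i hi).2.1) hA1
  have h10 : (D + 1) * (L / (η * L)) ^ D * A < M := by
    calc (D + 1) * (L / (η * L)) ^ D * A
        < (D + 1) * (L / (η * L)) ^ D * (η ^ D * M / (D + 1)) :=
          mul_lt_mul_of_pos_left hA2 (by positivity)
      _ = M := h8
  linarith

end Pool.Agent.Helper3.LF
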