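import Mathlib

/-! Univariate polynomials of degree at most `D`: values and derivatives are controlled by the values
at the nodes `j / (D + 1)`. (LEAF (0.1), (0.2)) -/

set_option autoImplicit false

namespace Pool.Agent.Helper3.LF

open Finset

/-- the nodes of the unit interval -/
noncomputable def nod (D : ℕ) (j : ℕ) : ℝ := (j : ℝ) / (D + 1)

theorem nod_inj (D : ℕ) : Function.Injective (nod D) := by
  intro i j h
  unfold nod at h
  have hD : ((D : ℝ) + 1) ≠ 0 := by positivity
  rw [div_left_inj' hD] at h
  exact_mod_cast h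

theorem nod_nonneg (D j : ℕ) : 0 ≤ nod D j := by unfold nod; positivity

theorem nod_le (D j : ℕ) (hj : j ≤ D) : nod D j ≤ 1 := by
  unfold nod
  rw [div_le_one (by positivity)]
  have : (j : ℝ) ≤ D := by exact_mod_cast hj
  linarith

/-- sum of the absolute values of the coefficients -/
noncomputable def l1 (f : Polynomial ℝ) : ℝ := ∑ i ∈ range (f.natDegree + 1), |f.coeff i|

theorem l1_nonneg (f : Polynomial ℝ) : 0 ≤ l1 f := Finset.sum_nonneg fun _ _ => abs_nonneg _

theorem abs_eval_le (f : Polynomial ℝ) (D : ℕ) (hf : f.natDegree ≤ D) (K s : ℝ) (hK : 1 ≤ K)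
    (hs : |s| ≤ K) : |f.eval s| ≤ l1 f * K ^ D := by
  rw [Polynomial.eval_eq_sum_range, l1, Finset.sum_mul]
  refine (Finset.abs_sum_le_sum_abs _ _).trans (Finset.sum_le_sum fun i hi => ?_)
  rw [abs_mul, abs_pow]
  refine mul_le_mul_of_nonneg_left ?_ (abs_nonneg _)
  have h1 : |s| ^ i ≤ K ^ i := pow_le_pow_left₀ (abs_nonneg s) hs i
  have h2 : K ^ i ≤ K ^ D := pow_le_pow_right₀ hK (by have := Finset.mem_range.1 hi; omega)
  exact h1.trans h2

/-- the basis polynomials of the nodes -/
noncomputable def bas (D j : ℕ) : Polynomial ℝ := Lagrange.basis (range (D + 1)) (nod D) j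

theorem bas_deg (D j : ℕ) (hj : j ∈ range (D + 1)) : (bas D j).natDegree ≤ D := by
  unfold bas
  have h1 := Lagrange.degree_basis (s := range (D + 1)) (v := nod D) (i := j)
    ((nod_inj D).injOn) hj
  rw [Finset.card_range, Nat.add_sub_cancel] at h1
  exact Polynomial.natDegree_le_of_degree_le (le_of_eq h1)

theorem interp (D : ℕ) (f : Polynomial ℝ) (hf : f.natDegree ≤ D) :
    f = ∑ j ∈ range (D + 1), Polynomial.C (f.eval (nod D j)) * bas D j := by
  have h1 : f.degree < (range (D + 1)).card := by
    rw [Finset.card_range]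
    refine lt_of_le_of_lt Polynomial.degree_le_natDegree ?_
    exact_mod_cast Nat.lt_succ_of_le hf
  have h2 := Lagrange.eq_interpolate (s := range (D + 1)) (v := nod D) ((nod_inj D).injOn) h1
  rw [Lagrange.interpolate_apply] at h2
  exact h2

/-- the constant -/
noncomputable def Cu (D : ℕ) : ℝ :=
  1 + ∑ k ∈ range (D + 1), ∑ j ∈ range (D + 1), l1 (Polynomial.derivative^[k] (bas D j))

theorem Cu_one (D : ℕ) : 1 ≤ Cu D := by
  unfold Cu
  have : 0 ≤ ∑ k ∈ range (D + 1), ∑ j ∈ range (D + 1), l1 (Polynomial.derivative^[k] (bas D j)) :=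
    Finset.sum_nonneg fun _ _ => Finset.sum_nonneg fun _ _ => l1_nonneg _
  linarith

theorem deriv_deg (D : ℕ) (f : Polynomial ℝ) (hf : f.natDegree ≤ D) (k : ℕ) :
    (Polynomial.derivative^[k] f).natDegree ≤ D :=
  ((Polynomial.natDegree_iterate_derivative f k).trans (Nat.sub_le _ _)).trans hf

/-- all derivatives of a polynomial of degree at most `D` are controlled by the values at the nodes -/
theorem uni_bound (D : ℕ) (f : Polynomial ℝ) (hf : f.natDegree ≤ D) (k : ℕ) (K s M : ℝ) (hK : 1 ≤ K)
    (hs : |s| ≤ K) (hM : ∀ j ≤ D, |f.eval (nod D j)| ≤ M) :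
    |(Polynomial.derivative^[k] f).eval s| ≤ Cu D * K ^ D * M := by
  have hM0 : 0 ≤ M := (abs_nonneg _).trans (hM 0 (Nat.zero_le _))
  have hKD : 0 ≤ K ^ D := by positivity
  by_cases hk : D < k
  · have h1 : Polynomial.derivative^[k] f = 0 :=
      Polynomial.iterate_derivative_eq_zero (lt_of_le_of_lt hf hk)
    rw [h1, Polynomial.eval_zero, abs_zero]
    have := Cu_one D
    positivity
  · have hk' : k ∈ range (D + 1) := Finset.mem_range.2 (by omega)
    have h1 : Polynomial.derivative^[k] f =
        ∑ j ∈ range (D + 1), Polynomial.C (f.eval (nod D j)) * Polynomial.derivative^[k] (bas D j) := by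
      conv_lhs => rw [interp D f hf]
      rw [Polynomial.iterate_derivative_sum]
      refine Finset.sum_congr rfl fun j _ => ?_
      rw [Polynomial.iterate_derivative_C_mul]
    rw [h1, Polynomial.eval_finsetSum]
    refine (Finset.abs_sum_le_sum_abs _ _).trans ?_
    have h2 : ∀ j ∈ range (D + 1), |(Polynomial.C (f.eval (nod D j)) *
        Polynomial.derivative^[k] (bas D j)).eval s| ≤
        l1 (Polynomial.derivative^[k] (bas D j)) * (K ^ D * M) := by
      intro j hj
      rw [Polynomial.eval_mul, Polynomial.eval_C, abs_mul]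
      have h3 := abs_eval_le _ D (deriv_deg D (bas D j) (bas_deg D j hj) k) K s hK hs
      have h4 := hM j (by have := Finset.mem_range.1 hj; omega)
      calc |f.eval (nod D j)| * |(Polynomial.derivative^[k] (bas D j)).eval s|
          ≤ M * (l1 (Polynomial.derivative^[k] (bas D j)) * K ^ D) :=
            mul_le_mul h4 h3 (abs_nonneg _) hM0
        _ = _ := by ring
    refine (Finset.sum_le_sum h2).trans ?_
    rw [← Finset.sum_mul, mul_assoc]
    refine mul_le_mul_of_nonneg_right ?_ (mul_nonneg hKD hM0)
    have h5 : ∑ j ∈ range (D + 1), l1 (Polynomial.derivative^[k] (bas D j)) ≤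
        ∑ k ∈ range (D + 1), ∑ j ∈ range (D + 1), l1 (Polynomial.derivative^[k] (bas D j)) :=
      Finset.single_le_sum (f := fun k => ∑ j ∈ range (D + 1),
        l1 (Polynomial.derivative^[k] (bas D j)))
        (fun _ _ => Finset.sum_nonneg fun _ _ => l1_nonneg _) hk'
    unfold Cu
    linarith

/-- the affine form: nodes `a + r * nod D j` -/
theorem uni_affine (D : ℕ) (f : Polynomial ℝ) (hf : f.natDegree ≤ D) (k : ℕ) (a r K s M : ℝ)
    (hr : 0 < r) (hK : 1 ≤ K) (hs : |s - a| ≤ K * r)
    (hM : ∀ j ≤ D, |f.eval (a + r * nod D j)| ≤ M) :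
    r ^ k * |(Polynomial.derivative^[k] f).eval s| ≤ Cu D * K ^ D * M := by
  set g : Polynomial ℝ := f.comp (Polynomial.C a + Polynomial.C r * Polynomial.X) with hg
  have hlin : (Polynomial.C a + Polynomial.C r * Polynomial.X : Polynomial ℝ).natDegree ≤ 1 := by
    refine (Polynomial.natDegree_add_le _ _).trans ?_
    refine max_le (by simp) ?_
    refine (Polynomial.natDegree_C_mul_le _ _).trans ?_
    simp
  have hgd : g.natDegree ≤ D := by
    rw [hg]
    refine (Polynomial.natDegree_comp_le).trans ?_
    calc f.natDegree * _ ≤ f.natDegree * 1 := Nat.mul_le_mul_left _ hlin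
      _ ≤ D := by rw [mul_one]; exact hf
  have hgev : ∀ z, g.eval z = f.eval (a + r * z) := by
    intro z
    rw [hg, Polynomial.eval_comp]
    simp
  have hgder : ∀ k, Polynomial.derivative^[k] g = Polynomial.C (r ^ k) *
      (Polynomial.derivative^[k] f).comp (Polynomial.C a + Polynomial.C r * Polynomial.X) := by
    intro k
    induction k with
    | zero => simp [hg]
    | succ k ih =>
      rw [Function.iterate_succ_apply', ih, Polynomial.derivative_C_mul, Polynomial.derivative_comp,
        Function.iterate_succ_apply']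
      simp only [Polynomial.derivative_add, Polynomial.derivative_C, zero_add,
        Polynomial.derivative_C_mul, Polynomial.derivative_X, mul_one, pow_succ, map_mul]
      ring
  have h1 := uni_bound D g hgd k K ((s - a) / r) M hK (by
    rw [abs_div, abs_of_pos hr, div_le_iff₀ hr]
    exact hs) (by
    intro j hj
    rw [hgev]
    exact hM j hj)
  rw [hgder, Polynomial.eval_mul, Polynomial.eval_C, Polynomial.eval_comp, abs_mul,
    abs_of_pos (pow_pos hr k)] at h1
  have h2 : (Polynomial.C a + Polynomial.C r * Polynomial.X : Polynomial ℝ).eval ((s - a) / r) = s := by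
    simp only [Polynomial.eval_add, Polynomial.eval_C, Polynomial.eval_mul, Polynomial.eval_X]
    field_simp
    ring
  rw [h2] at h1
  exact h1

end Pool.Agent.Helper3.LF
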