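import Pool.Agent.Helper89.LX.Hrc
import Pool.Agent.Helper59.LF.Add

/-! Windows of labels: over a double Markov label of the window `c` the height has full entropy below `c`; Remez
inequality for forms on labels. (LEAF (0.2)) -/

set_option autoImplicit false

namespace Pool.Agent.Helper3.LF

open Finset Filter Topology Matrix Pool.Agent.Helper69.RK Pool.Agent.Helper31.EC Pool.Agent.Helper40.EL
open Pool.Agent.Helper95.LF Pool.Agent.Helper89.LX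

noncomputable section

variable {S : Sp} {m : ℕ} {s : Sys S m}

/-- lengths of the space of a label -/
theorem sp_dl (l : Lab S) (r : ℝ) (k : ℕ) : l.sp.dl r k = S.dl r k := by
  unfold Sp.dl
  have h1 : (l.sp.F k).n = (S.F k).n := (l k).hn
  rw [h1]

theorem sp_n (l : Lab S) (k : ℕ) : (l.sp.F k).n = (S.F k).n := (l k).hn

theorem sp_Sub (l : Lab S) {K : ℕ → ℝ} : l.sp.Sub K ↔ S.Sub K := by
  unfold Sp.Sub
  have h1 : (fun k => Real.logb 2 (K k + 2) / (l.sp.F k).n) = fun k => Real.logb 2 (K k + 2) / (S.F k).n := by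
    funext k
    rw [sp_n]
  rw [h1]

/-- the condition of the window: the label, the line, and the height up to level `c` -/
def wB (s : Sys S m) (c : ℝ) (l : Lab S) : ∀ k, Setoid (l.sp.F k).Ω := fun k =>
  (l k).V ⊓ Setoid.comap (l k).p.π (Setoid.ker (s.a.cellv 1 k) ⊓ Setoid.ker (s.x.cellv 1 k) ⊓
    Setoid.ker (s.t.cellv c k))

theorem cellv_pj (l : Lab S) {p : ℕ} (y : S.VV p) (r : ℝ) (k : ℕ) :
    Setoid.ker ((l.pj.vv y).cellv r k) = Setoid.comap (l k).p.π (Setoid.ker (y.cellv r k)) := by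
  have h1 : (l.pj.vv y).cellv r k = fun ω => y.cellv r k ((l k).p.π ω) := by
    funext ω
    unfold Sp.VV.cellv
    rw [sp_dl]
    rfl
  rw [h1]
  rfl

/-- full entropy of the height below the window -/
theorem win_ent {c : ℝ} (h0 : 0 ≤ c) (h1 : c ≤ 1) {l : Lab S} (hl : DMc s c l) :
    1 - c ≤ ul (l.sp.rt (fun k => Setoid.ker ((l.pj.vv s.t).cellv 1 k)) (wB s c l)) := by
  have e1 : h s.T (lA s c) = 1 - c := h_T_A s h0 h1
  have e2 : h s.T (lA s c) = ul (S.rt (fun k => Setoid.ker (s.t.cellv 1 k))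
      (fun k => Setoid.ker (s.a.cellv 1 k) ⊓ Setoid.ker (s.x.cellv 1 k) ⊓ Setoid.ker (s.t.cellv c k))) := by
    rw [← cl_A]
    have h3 : s.T = Sp.cl (s.It 1) := (s.cl_It 1).symm
    rw [h3, Sp.h_cl]
    rfl
  have hU1 : UB (S.rt (fun k => Setoid.ker (s.t.cellv 1 k))
      (fun k => Setoid.ker (s.a.cellv 1 k) ⊓ Setoid.ker (s.x.cellv 1 k) ⊓ Setoid.ker (s.t.cellv c k))) :=
    Sp.UB_rt (s.It 1) _
  have hU2 : UB (l.sp.rt (fun k => Setoid.ker ((l.pj.vv s.t).cellv 1 k)) (wB s c l)) :=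
    Sp.UB_rt ((l.pj.vv s.t).bdd 1).toInf _
  have hlk : Tendsto (fun k => (l k).leak (cA s c k) / (S.F k).n) UF (𝓝 0) := hl.1
  have t1 := (ul_tendsto hU1).sub hlk
  rw [← e2, e1, sub_zero] at t1
  refine le_of_tendsto_of_tendsto t1 (ul_tendsto hU2) (Eventually.of_forall fun k => ?_)
  have hn := (S.F k).pos
  unfold Sp.rt
  beta_reduce
  rw [sp_n, ← sub_div]
  apply div_le_div_of_nonneg_right _ hn.le
  -- finite inequality
  set A : Setoid (S.F k).Ω := Setoid.ker (s.a.cellv 1 k) ⊓ Setoid.ker (s.x.cellv 1 k) ⊓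
    Setoid.ker (s.t.cellv c k) with hA
  have f1 : (S.F k).e (Setoid.ker (s.t.cellv 1 k)) (A ⊓ (S.F k).Z) = h (fc (Setoid.ker (s.t.cellv 1 k))) (fc A) :=
    (h_fc _ _).symm
  have f2 : (l.sp.F k).e (Setoid.ker ((l.pj.vv s.t).cellv 1 k)) (wB s c l k ⊓ (l.sp.F k).Z) =
      h ((l k).p.map (fc (Setoid.ker (s.t.cellv 1 k)))) ((l k).v ⊔ (l k).p.map (fc A)) := by
    rw [cellv_pj]
    exact (h_fc _ _).symm
  rw [f1, f2]
  have f3 : (l k).leak (cA s c k) = I (l k).v (l k).p.top ((l k).p.map (fc A)) := rfl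
  have f4 : I (l k).v ((l k).p.map (fc (Setoid.ker (s.t.cellv 1 k)))) ((l k).p.map (fc A)) ≤
      I (l k).v (l k).p.top ((l k).p.map (fc A)) := by
    apply I_mono_right
    exact ((l k).p.map_le_top _).trans le_sup_left
  have f5 : I (l k).v ((l k).p.map (fc (Setoid.ker (s.t.cellv 1 k)))) ((l k).p.map (fc A)) =
      h ((l k).p.map (fc (Setoid.ker (s.t.cellv 1 k)))) ((l k).p.map (fc A)) -
      h ((l k).p.map (fc (Setoid.ker (s.t.cellv 1 k)))) ((l k).v ⊔ (l k).p.map (fc A)) := by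
    rw [I_comm, I_eq]
  have f6 := (l k).p.h_map (fc (Setoid.ker (s.t.cellv 1 k))) (fc A)
  rw [f3]
  linarith

/-- the point of the system in the space of the label -/
theorem pl_pj (l : Lab S) (k : ℕ) (ω : (l k).T.Ω) :
    pl ((l.pj.vv s.a).v k ω) ((l.pj.vv s.x).v k ω) ((l.pj.vv s.t).v k ω 0) = ptf s k ((l k).p.π ω) := rfl

/-- closeness on the cells of the window -/
theorem wB_close {c : ℝ} {l : Lab S} (k : ℕ) (ω ω' : (l k).T.Ω) (h : wB s c l k ω' ω) :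
    (∀ i, |(l.pj.vv s.a).v k ω' i - (l.pj.vv s.a).v k ω i| ≤ 1 * l.sp.dl 1 k) ∧
    (∀ i, |(l.pj.vv s.x).v k ω' i - (l.pj.vv s.x).v k ω i| ≤ 1 * l.sp.dl 1 k) ∧
    |(l.pj.vv s.t).v k ω' 0 - (l.pj.vv s.t).v k ω 0| ≤ 1 * l.sp.dl c k := by
  obtain ⟨-, ⟨h1, h2⟩, h3⟩ := h
  rw [sp_dl, sp_dl, one_mul, one_mul]
  exact ⟨fun i => s.a.cellv_close 1 k _ _ h1 i, fun i => s.x.cellv_close 1 k _ _ h2 i,
    s.t.cellv_close c k _ _ h3 0⟩

/-- REMEZ for `phi` of forms on labels -/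
theorem win_phi {D : ℕ} {c : ℝ} (h0 : 0 ≤ c) (h1 : c < 1) {l : Lab S} (hl : DMc s c l)
    (A : ∀ k, (l k).T.Ω → Matrix (Mon (m + 1) D) (Mon (m + 1) D) ℝ)
    (hA : ∀ᶠ k in UF, ∀ ω, (l k).T.μ ω ≠ 0 → PdM (A k ω))
    (hV : ∀ᶠ k in UF, ∀ ω ω', (l k).T.μ ω ≠ 0 → (l k).T.μ ω' ≠ 0 → (l k).V ω ω' → (l k).T.Z ω ω' → A k ω = A k ω')
    (b : ℝ) (hb : 0 ≤ b) (L : ℕ → ℝ) (hL : S.Sub L) :
    ∃ K' : ℕ → ℝ, S.Sub K' ∧ Sp.Typ (S := l.sp) (fun k (ω : (l k).T.Ω) =>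
      ∀ r, |r - s.t.v k ((l k).p.π ω) 0| ≤ L k * S.dl (c - b) k →
      phi (S.dl 1 k) (A k ω) (pl (s.a.v k ((l k).p.π ω)) (s.x.v k ((l k).p.π ω)) r) ≤
        K' k * 2 ^ ((2 * D : ℕ) * b * (S.F k).n) * sph s D k ((l k).p.π ω) (A k ω)) := by
  obtain ⟨K', hK', hT⟩ := phi_rem (S := l.sp) (l.pj.vv s.a) (l.pj.vv s.x) (l.pj.vv s.t) c 1 h0 h1 (wB s c l) A
    hA (fun _ => 1) (l.sp.Sub_const zero_le_one) (by
      filter_upwards [hV] with k hk ω ω' a a' e z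
      exact ⟨hk ω' ω a' a e.1 z, wB_close k ω ω' e⟩) (win_ent h0 h1.le hl) b hb L ((sp_Sub l).mpr hL)
  refine ⟨K', (sp_Sub l).mp hK', ?_⟩
  refine squeeze_zero' (Eventually.of_forall fun k => Sp.mass_res_nonneg (S := l.sp) k _) ?_ hT
  refine Eventually.of_forall fun k => ?_
  apply mass_res_mono _ _ _ (l.sp.F k).nn
  intro ω hω hE hcon
  apply hE
  intro r hr
  have h2 := hcon r (by rw [sp_dl]; exact hr)
  rw [sp_dl, sp_n] at h2
  exact h2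

/-- REMEZ for `gam` of forms on labels -/
theorem win_gam {D : ℕ} {c : ℝ} (h0 : 0 ≤ c) (h1 : c < 1) {l : Lab S} (hl : DMc s c l)
    (A : ∀ k, (l k).T.Ω → Matrix (Mon (m + 1) D) (Mon (m + 1) D) ℝ)
    (hA : ∀ᶠ k in UF, ∀ ω, (l k).T.μ ω ≠ 0 → PdM (A k ω))
    (hV : ∀ᶠ k in UF, ∀ ω ω', (l k).T.μ ω ≠ 0 → (l k).T.μ ω' ≠ 0 → (l k).V ω ω' → (l k).T.Z ω ω' → A k ω = A k ω')
    (b : ℝ) (hb : 0 ≤ b) (L : ℕ → ℝ) (hL : S.Sub L) :
    ∃ K' : ℕ → ℝ, S.Sub K' ∧ Sp.Typ (S := l.sp) (fun k (ω : (l k).T.Ω) =>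
      ∀ r, |r - s.t.v k ((l k).p.π ω) 0| ≤ L k * S.dl (c - b) k →
      gam (S.dl 1 k) (A k ω) (pl (s.a.v k ((l k).p.π ω)) (s.x.v k ((l k).p.π ω)) r) ≤
        K' k * 2 ^ ((2 * D : ℕ) * b * (S.F k).n) * sga s D k ((l k).p.π ω) (A k ω)) := by
  obtain ⟨K', hK', hT⟩ := gam_rem (S := l.sp) (l.pj.vv s.a) (l.pj.vv s.x) (l.pj.vv s.t) c 1 h0 h1 (wB s c l) A
    hA (fun _ => 1) (l.sp.Sub_const zero_le_one) (by
      filter_upwards [hV] with k hk ω ω' a a' e z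
      exact ⟨hk ω' ω a' a e.1 z, wB_close k ω ω' e⟩) (win_ent h0 h1.le hl) b hb L ((sp_Sub l).mpr hL)
  refine ⟨K', (sp_Sub l).mp hK', ?_⟩
  refine squeeze_zero' (Eventually.of_forall fun k => Sp.mass_res_nonneg (S := l.sp) k _) ?_ hT
  refine Eventually.of_forall fun k => ?_
  apply mass_res_mono _ _ _ (l.sp.F k).nn
  intro ω hω hE hcon
  apply hE
  intro r hr
  have h2 := hcon r (by rw [sp_dl]; exact hr)
  rw [sp_dl, sp_n] at h2
  exact h2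

end

end Pool.Agent.Helper3.LF
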